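import Pool.Agent.Lib.MP_9cc147_pr.Cx.B.Geo

/-! Transport of the admissible configurations and of their counts along a move. -/

open scoped Classical
open Finset

noncomputable section
namespace Pool.Agent.Lib.MP_9cc147_pr.Cx

theorem bp_cfgs {ι S : Type} (V : Finset S) (d : S) (R : Finset ι) (f : ι → S) :
    f ∈ cfgs V d R ↔ (∀ x ∈ R, f x ∈ V) ∧ ∀ x, x ∉ R → f x = d := by
  simp only [cfgs, mem_image, mem_pi]
  constructor
  · rintro ⟨g, hg, rfl⟩
    exact ⟨fun x hx => by simpa [hx] using hg x hx, fun x hx => by simp [hx]⟩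
  · rintro ⟨h1, h2⟩
    refine ⟨fun x _ => f x, h1, funext fun x => ?_⟩
    by_cases hx : x ∈ R
    · simp [hx]
    · simp [hx, h2 x hx]

variable {R : ℕ} {u : ℤ}

theorem bp_uu (hu : u = 1 ∨ u = -1) (w : Gp R) : u • u • w = w := by
  rcases hu with rfl | rfl <;> simp
theorem bp_uinj (hu : u = 1 ∨ u = -1) (w w' : Gp R) : u • w = u • w' ↔ w = w' := by
  rcases hu with rfl | rfl <;> simp
theorem bp_u0 (hu : u = 1 ∨ u = -1) (w : Gp R) (i : Fin (ng R)) : (u • w) i = 0 ↔ w i = 0 := by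
  rcases hu with rfl | rfl <;> simp
theorem bp_nrm (hu : u = 1 ∨ u = -1) (w : Gp R) : nrm (u • w) = nrm w := by
  rcases hu with rfl | rfl <;> simp [nrm]
theorem bp_Wk (hu : u = 1 ∨ u = -1) (k : ℕ) (w : Gp R) : u • w ∈ Wk R k ↔ w ∈ Wk R k := by
  simp only [Wk, mem_filter, bp_nrm hu, Fintype.mem_piFinset, mem_Icc]
  refine and_congr_left fun _ => forall_congr' fun i => ?_
  rcases hu with rfl | rfl
  · simp
  · simp only [neg_smul, one_smul, Pi.neg_apply]; omega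
theorem bp_Wl (hu : u = 1 ∨ u = -1) (w : Gp R) : u • w ∈ Wl R ↔ w ∈ Wl R := by
  simp only [Wl, mem_union, bp_Wk hu]
theorem bp_isG (hu : u = 1 ∨ u = -1) (w : Gp R) : isG (u • w) ↔ isG w := by
  simp only [isG, ne_eq, bp_u0 hu]
theorem bp_xw (o : Mod) (hu : u = 1 ∨ u = -1) (w : Gp o.R) : o.xw (u • w) = o.xw w := by
  simp only [Mod.xw, ne_eq, bp_u0 hu, bp_isG hu]

namespace Geo
variable {L : ℕ} {G : Geo L} {m m' : ℕ} {X X' : Finset P} {δ δ' : Form R} {ω ω' : Om}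
  {a a' : P → Gp R} {σ σ' : P → Option Lab}

theorem ex_tr (G : Geo L) (hu : u = 1 ∨ u = -1) {Q Q' : (P → Gp R) → Prop}
    (h : ∀ a a', (∀ x, a' (G.φ x) = u • a x) → (Q' a' ↔ Q a)) : (∃ a, Q' a) ↔ ∃ a, Q a :=
  ⟨fun ⟨a', h'⟩ => ⟨fun x => u • a' (G.φ x), (h _ a' fun x => (bp_uu hu _).symm).1 h'⟩,
    fun ⟨a, h'⟩ => ⟨fun x => u • a (G.φ.symm x), (h a _ fun x => by simp).2 h'⟩⟩

namespace Ctx

theorem forms (h : G.Ctx m m' X X') (hu : u = 1 ∨ u = -1) (hδ : ∀ e, δ' (G.em e) = u • δ e) :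
    δ' ∈ forms R (L * m') (under L X') ↔ δ ∈ forms R (L * m) (under L X) := by
  simp only [Cx.forms, mem_filter, bp_cfgs]
  refine and_congr (and_congr ?_ ?_) (and_congr ?_ ?_) <;> rw [G.em.surjective.forall] <;>
    refine forall_congr' fun e => ?_
  · rw [h.he, hδ, mem_union, mem_union, bp_Wl hu, bp_Wk hu]
  · rw [h.he, hδ, ← bp_uinj hu (δ e) 0, smul_zero]
  · rw [G.rev_em, hδ, hδ, ← smul_neg, bp_uinj hu]
  · rw [h.he, G.rev_em1, G.em1, h.S, h.S, hδ, bp_Wl hu]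

theorem pure (h : G.Ctx m m' X X') (hu : u = 1 ∨ u = -1) (ha : ∀ x, a' (G.φ x) = u • a x)
    (hω : ∀ (d : Fin 4), ∀ x ∈ under L X, ω' ((G.κ d).val, G.φ x) = 0 ↔ ω (d.val, x) = 0)
    (s : Lab) {T : P} (hT : T ∈ X) :
    pure (L * m') L (G.π s) a' ω' (G.β T) ↔ pure (L * m) L s a ω T := by
  have hc : ∀ x ∈ cell L T, par L x ∈ X := fun x hx => (bp_cell h.pos _ _).1 hx ▸ hT
  refine and_congr ?_ (and_congr ?_ ?_)
  · rw [G.φ.surjective.forall]
    refine forall_congr' fun x => ?_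
    rw [h.cel]
    refine forall_congr' fun hx => ?_
    rw [h.cq x (hc x hx), ha, bp_nrm hu, G.typ_φ]
  · rw [G.φ.surjective.forall]
    refine forall_congr' fun x => ?_
    rw [h.cel]
    refine forall_congr' fun hx => ?_
    rw [G.φ.surjective.forall]
    refine forall_congr' fun y => ?_
    rw [h.cel]
    refine forall_congr' fun hy => ?_
    simp only [h.cq x (hc x hx), h.cq y (hc y hy), ha, bp_u0 hu, ne_eq, G.φ.injective.eq_iff]
  · rw [G.em.surjective.forall]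
    refine forall_congr' fun e => ?_
    rw [G.em1, G.em2, h.cel, imp.swap, imp.swap (a := e ∈ _)]
    refine forall_congr' fun hx => ?_
    have hS := (bp_under h.pos _ _).2 (hc _ hx)
    rw [h.hes (Or.inl hS), hω _ _ hS]

theorem pureOn (h : G.Ctx m m' X X') (hu : u = 1 ∨ u = -1) (ha : ∀ x, a' (G.φ x) = u • a x)
    (hω : ∀ (d : Fin 4), ∀ x ∈ under L X, ω' ((G.κ d).val, G.φ x) = 0 ↔ ω (d.val, x) = 0)
    (hδ : ∀ e, δ' (G.em e) = u • δ e) (s : Lab) :
    pureOn (L * m') L (G.π s) a' ω' δ' X' ↔ pureOn (L * m) L s a ω δ X := by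
  refine and_congr ?_ ?_
  · rw [G.β.surjective.forall]
    refine forall_congr' fun T => ?_
    rw [h.img]
    exact forall_congr' fun hT => h.pure hu ha hω s hT
  · rw [grad, grad, G.em.surjective.forall]
    refine forall_congr' fun e => ?_
    rw [G.rev_em1, G.em1, h.S, h.S, imp.swap, imp.swap (a := e ∈ _)]
    refine forall_congr' fun hx => ?_
    rw [h.hes (Or.inl hx), hδ, ha, ha, ← smul_sub, bp_uinj hu]

theorem pureNear (h : G.Ctx m m' X X') (hu : u = 1 ∨ u = -1) (ha : ∀ x, a' (G.φ x) = u • a x)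
    (hω : ∀ (d : Fin 4), ∀ x ∈ under L X, ω' ((G.κ d).val, G.φ x) = 0 ↔ ω (d.val, x) = 0)
    (hδ : ∀ e, δ' (G.em e) = u • δ e) (s : Lab) (T : P) :
    Cx.pureOn (L * m') L (G.π s) a' ω' δ' (Cx.near 1 X' {G.β T}) ↔
      Cx.pureOn (L * m) L s a ω δ (Cx.near 1 X {T}) := by
  have hs : Cx.near 1 X {T} ⊆ X := filter_subset _ _
  refine (h.mono hs (h.near T)).pureOn hu ha (fun d x hx => hω d x ?_) hδ s
  exact (bp_under h.pos _ _).2 (hs ((bp_under h.pos _ _).1 hx))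

theorem sg (hσ : ∀ B, σ' (G.β B) = (σ B).map G.π) (B : P) (s : Lab) :
    σ' (G.β B) = some (G.π s) ↔ σ B = some s := by
  rw [hσ]
  cases σ B <;> simp

theorem adm (h : G.Ctx m m' X X') (hu : u = 1 ∨ u = -1)
    (hω : ∀ (d : Fin 4), ∀ x ∈ under L X, ω' ((G.κ d).val, G.φ x) = 0 ↔ ω (d.val, x) = 0)
    (hσ : ∀ B, σ' (G.β B) = (σ B).map G.π) (hδ : ∀ e, δ' (G.em e) = u • δ e) :
    δ' ∈ adm R (L * m') L m' ω' X' σ' ↔ δ ∈ adm R (L * m) L m ω X σ := by
  simp only [Cx.adm, mem_filter]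
  refine and_congr (h.forms hu hδ) (and_congr ?_ ?_) <;> rw [G.β.surjective.forall] <;>
    refine forall_congr' fun T => ?_
  · rw [h.bdry, G.π.surjective.exists]
    refine forall_congr' fun _ => exists_congr fun s => G.ex_tr hu fun a a' ha => ?_
    refine and_congr (sg hσ T s) (and_congr (h.pureNear hu ha hω hδ s T) ?_)
    rw [G.em.surjective.forall]
    refine forall_congr' fun e => ?_
    rw [G.rev_em1, G.em1, h.S, h.cel, imp.swap, imp.swap (a := e ∈ _)]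
    refine forall_congr' fun hx => ?_
    rw [h.hes (Or.inl hx), hδ, ha, ← smul_neg, bp_uinj hu]
  · rw [h.img, G.π.surjective.exists]
    refine forall_congr' fun hT => not_congr
      (exists_congr fun s => G.ex_tr hu fun a a' ha => ?_)
    refine and_congr (h.pureNear hu ha hω hδ s T) ?_
    rw [G.β.surjective.forall]
    exact forall_congr' fun B => by rw [h.nearb hT, sg hσ]

theorem pur {T : P} (h : G.Ctx m m' {T} {G.β T}) (hu : u = 1 ∨ u = -1)
    (hω : ∀ (d : Fin 4), ∀ x ∈ under L {T}, ω' ((G.κ d).val, G.φ x) = 0 ↔ ω (d.val, x) = 0)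
    (hδ : ∀ e, δ' (G.em e) = u • δ e) (s : Lab) :
    δ' ∈ pur R (L * m') L ω' (G.π s) (G.β T) ↔ δ ∈ pur R (L * m) L ω s T := by
  simp only [Cx.pur, mem_filter]
  refine and_congr (by simpa only [bp_under1] using h.forms hu hδ)
    (G.ex_tr hu fun a a' ha => and_congr (h.pureOn hu ha hω hδ s) ?_)
  rw [G.em.surjective.forall]
  refine forall_congr' fun e => ?_
  rw [G.rev_em1, G.em1, h.cel, h.cel, imp.swap, imp.swap (a := e ∈ _)]
  refine forall_congr' fun hx => ?_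
  rw [h.hes (Or.inl (by rwa [bp_under1])), hδ, ha, ← smul_neg, bp_uinj hu]

theorem exc (hσ : ∀ B, σ' (G.β B) = (σ B).map G.π) (e : P × Fin 4) :
    exc L σ' (G.em e) = exc L σ e := by
  rw [Cx.exc, Cx.exc, G.rev_em1, G.par_φ, hσ, G.em1]
  cases σ (par L (rev e).1) <;> simp [G.typ_φ]

theorem cap (h : G.Ctx m m' X X') {e : P × Fin 4} (he : e.1 ∈ under L X) :
    cap (L * m') (G.em e) = cap (L * m) e := by
  obtain ⟨h1, h2⟩ := bp_ends h.pos (Or.inl he)
  have : ((G.em e).1 + crn (G.em e).2 ∈ Cx.ring (L * m') ∨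
      (G.em e).1 + crn ((G.em e).2 + 1) ∈ Cx.ring (L * m')) ↔
      (e.1 + crn e.2 ∈ Cx.ring (L * m) ∨ e.1 + crn (e.2 + 1) ∈ Cx.ring (L * m)) := by
    rw [← h.ring h1, ← h.ring h2, G.em1, G.em2]
    rcases G.ori with ⟨-, o⟩ | ⟨-, o⟩
    · rw [(o _ _).1, (o _ _).2]
    · rw [(o _ _).1, (o _ _).2, or_comm]
  simp only [Cx.cap, this]

theorem nexp (h : G.Ctx m m' X X') (hσ : ∀ B, σ' (G.β B) = (σ B).map G.π) :
    nexp (L * m') L X' σ' = nexp (L * m) L X σ := by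
  have hc : X.card = X'.card := card_equiv G.β fun B => (h.img B).symm
  rw [Cx.nexp, Cx.nexp, hc]
  congr 1
  refine (sum_equiv G.em (fun e => (h.crs e).symm) fun e he => ?_).symm
  rw [exc hσ, h.cap (mem_filter.1 he).2.1]

end Ctx

/-- action of a move and a sign on forms -/
def tf (G : Geo L) (R : ℕ) {u : ℤ} (hu : u = 1 ∨ u = -1) : Form R ≃ Form R where
  toFun δ e := u • δ (G.em.symm e)
  invFun δ e := u • δ (G.em e)
  left_inv δ := funext fun e => by simp only [Equiv.symm_apply_apply, bp_uu hu]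
  right_inv δ := funext fun e => by simp only [Equiv.apply_symm_apply, bp_uu hu]

theorem tf_em (G : Geo L) (hu : u = 1 ∨ u = -1) (δ : Form R) (e : P × Fin 4) :
    G.tf R hu δ (G.em e) = u • δ e := by simp [tf]

theorem Ctx.cp {T : P} (h : G.Ctx m m' {T} {G.β T}) (o : Mod) (s : Lab) :
    o.cp (L * m') L (G.π s) (G.β T) = o.cp (L * m) L s T := by
  have hu : (1 : ℤ) = 1 ∨ (1 : ℤ) = -1 := Or.inl rfl
  rw [Mod.cp, Mod.cp, h.nexp (σ := fun _ => some s) fun _ => rfl]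
  congr 1
  refine (sum_equiv (G.tf o.R hu) (fun δ => (h.pur hu (fun _ _ _ => Iff.rfl)
    (G.tf_em hu δ) s).symm) fun δ _ => ?_).symm
  refine prod_equiv G.em (fun e => ?_) fun e _ => by rw [G.tf_em, one_smul]
  simpa only [bp_under1] using (h.he e).symm

end Geo

end Pool.Agent.Lib.MP_9cc147_pr.Cx
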