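import Pool.Agent.Lib.MP_9cc147_pr.Cx.D4

/-! Moves of the lattice and their action on tiles, faces, edges and vertices. -/

open scoped Classical
open Finset

noncomputable section
namespace Pool.Agent.Lib.MP_9cc147_pr.Cx

theorem bp_div {L : ℕ} (hL : 0 < L) (x B : ℤ) : x / L = B ↔ B * L ≤ x ∧ x < (B + 1) * L := by
  have h : (0 : ℤ) < L := by exact_mod_cast hL
  constructor
  · rintro rfl
    exact ⟨Int.ediv_mul_le _ h.ne', Int.lt_ediv_add_one_mul_self _ h⟩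
  · rintro ⟨h1, h2⟩
    have a := (Int.le_ediv_iff_mul_le h).2 h1
    have b := (Int.ediv_lt_iff_lt_mul h).2 h2
    omega

theorem bp_cell {L : ℕ} (hL : 0 < L) (x B : P) : x ∈ cell L B ↔ par L x = B := by
  simp only [cell, par, mem_product, mem_Ico, Prod.ext_iff, bp_div hL]

theorem bp_under {L : ℕ} (hL : 0 < L) (x : P) (X : Finset P) : x ∈ under L X ↔ par L x ∈ X := by
  simp only [under, mem_biUnion, bp_cell hL, exists_eq_right']

theorem bp_under1 (L : ℕ) (T : P) : under L {T} = cell L T := by simp [under]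

theorem bp_box (n : ℕ) (x : P) : x ∈ box n ↔ (0 ≤ x.1 ∧ x.1 < n) ∧ 0 ≤ x.2 ∧ x.2 < n := by
  simp only [box, mem_product, mem_Ico]

theorem bp_box_par {L : ℕ} (hL : 0 < L) (m : ℕ) (x : P) : x ∈ box (L * m) ↔ par L x ∈ box m := by
  have h : (0 : ℤ) < L := by exact_mod_cast hL
  simp only [bp_box, par, Int.le_ediv_iff_mul_le h, Int.ediv_lt_iff_lt_mul h, zero_mul, Nat.cast_mul,
    mul_comm (m : ℤ)]

theorem bp_nr1 {L : ℕ} (hL : 0 < L) {x y : ℤ} (h : |x - y| ≤ 1) : |x / L - y / L| ≤ 1 := by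
  have h0 : (1 : ℤ) ≤ L := by exact_mod_cast hL
  obtain ⟨a1, a2⟩ := (bp_div hL x _).1 rfl
  obtain ⟨b1, b2⟩ := (bp_div hL y _).1 rfl
  rw [abs_le] at h ⊢
  constructor <;> nlinarith

theorem bp_nr_par {L : ℕ} (hL : 0 < L) {x y : P} (h : nr 1 x y) : nr 1 (par L x) (par L y) :=
  ⟨bp_nr1 hL h.1, bp_nr1 hL h.2⟩

theorem bp_nr_refl (a : P) : nr 1 a a := by simp [nr]
theorem bp_nr_symm {a b : P} (h : nr 1 a b) : nr 1 b a :=
  ⟨by rw [abs_sub_comm]; exact h.1, by rw [abs_sub_comm]; exact h.2⟩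
theorem bp_nr_dir (x : P) (d : Fin 4) : nr 1 x (x + dir d) := by
  fin_cases d <;> simp [nr, dir]
theorem bp_nr_crn (p : P) (d d' : Fin 4) : nr 1 (p - crn d) (p - crn d') := by
  fin_cases d <;> fin_cases d' <;> simp [nr, crn]

theorem bp_fat {L : ℕ} (hL : 0 < L) (p B : P) : p ∈ fat L 0 B ↔ ∃ d, par L (p - crn d) = B := by
  have h0 : (1 : ℤ) ≤ L := by exact_mod_cast hL
  simp only [fat, par, mem_product, mem_Icc, Prod.ext_iff, bp_div hL, Fin.exists_fin_succ, crn,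
    add_mul, one_mul]
  simp
  omega

theorem bp_V {L : ℕ} (hL : 0 < L) (p : P) (X : Finset P) :
    p ∈ X.biUnion (fat L 0) ↔ ∃ d, p - crn d ∈ under L X := by
  simp only [mem_biUnion, bp_fat hL, bp_under hL]
  exact ⟨fun ⟨B, hB, d, h⟩ => ⟨d, h ▸ hB⟩, fun ⟨d, h⟩ => ⟨_, h, d, rfl⟩⟩

theorem bp_inn (n : ℕ) (p : P) : p ∈ inn n ↔ ∀ d, p - crn d ∈ box n := by
  simp only [inn, mem_product, mem_Ioo, bp_box, Fin.forall_fin_succ, crn]
  simp
  omega

theorem bp_sqr {n : ℕ} {p : P} {d : Fin 4} (h : p - crn d ∈ box n) : p ∈ sqr n := by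
  rw [bp_box] at h
  simp only [sqr, mem_product, mem_Icc]
  fin_cases d <;> simp [crn] at h <;> omega

theorem bp_hes (n : ℕ) (e : P × Fin 4) : e ∈ hes n ↔ e.1 ∈ box n ∧ (rev e).1 ∈ box n := by
  simp [hes, rev]

theorem bp_rev_rev (e : P × Fin 4) : rev (rev e) = e := by
  obtain ⟨x, d⟩ := e
  fin_cases d <;> simp [rev, dir, Prod.ext_iff]

theorem bp_hes_rev (n : ℕ) (e : P × Fin 4) : rev e ∈ hes n ↔ e ∈ hes n := by
  rw [bp_hes, bp_hes, bp_rev_rev, and_comm]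

theorem bp_rev_crn (e : P × Fin 4) : (rev e).1 + crn (rev e).2 = e.1 + crn (e.2 + 1) ∧
    (rev e).1 + crn ((rev e).2 + 1) = e.1 + crn e.2 := by
  obtain ⟨x, d⟩ := e
  fin_cases d <;> simp [rev, dir, crn, Prod.ext_iff]

/-- both ends of an edge at the tiles `X` lie in the closed tiles -/
theorem bp_ends {L : ℕ} (hL : 0 < L) {X : Finset P} {e : P × Fin 4}
    (h : e.1 ∈ under L X ∨ (rev e).1 ∈ under L X) :
    e.1 + crn e.2 ∈ X.biUnion (fat L 0) ∧ e.1 + crn (e.2 + 1) ∈ X.biUnion (fat L 0) := by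
  rw [bp_V hL, bp_V hL]
  rcases h with h | h
  · exact ⟨⟨e.2, by simpa using h⟩, e.2 + 1, by simpa using h⟩
  · rw [← (bp_rev_crn e).1, ← (bp_rev_crn e).2]
    exact ⟨⟨(rev e).2 + 1, by simpa using h⟩, (rev e).2, by simpa using h⟩

/-- a move of the lattice: faces, tiles, vertices, directions, phases, orientation -/
structure Geo (L : ℕ) where
  φ : P ≃ P
  β : P ≃ P
  ψ : P ≃ P
  κ : Fin 4 ≃ Fin 4
  π : Lab ≃ Lab
  ε : ℤ
  par_φ : ∀ x, par L (φ x) = β (par L x)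
  nr_β : ∀ a b, nr 1 (β a) (β b) ↔ nr 1 a b
  dir_φ : ∀ x d, φ (x + dir d) = φ x + dir (κ d)
  κ2 : ∀ d, κ (d + 2) = κ d + 2
  typ_φ : ∀ s x, typ (π s) (φ x) = typ s x
  ori : (ε = 1 ∧ ∀ x d, ψ (x + crn d) = φ x + crn (κ d) ∧
      ψ (x + crn (d + 1)) = φ x + crn (κ d + 1)) ∨
    (ε = -1 ∧ ∀ x d, ψ (x + crn d) = φ x + crn (κ d + 1) ∧
      ψ (x + crn (d + 1)) = φ x + crn (κ d))

def Geo.one (L : ℕ) : Geo L where
  φ := Equiv.refl _
  β := Equiv.refl _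
  ψ := Equiv.refl _
  κ := Equiv.refl _
  π := Equiv.refl _
  ε := 1
  par_φ _ := rfl
  nr_β _ _ := Iff.rfl
  dir_φ _ _ := rfl
  κ2 _ := rfl
  typ_φ _ _ := rfl
  ori := Or.inl ⟨rfl, fun _ _ => ⟨rfl, rfl⟩⟩

namespace Geo
variable {L : ℕ} (G : Geo L)

def em : P × Fin 4 ≃ P × Fin 4 := G.φ.prodCongr G.κ
theorem em1 (e : P × Fin 4) : (G.em e).1 = G.φ e.1 := rfl
theorem em2 (e : P × Fin 4) : (G.em e).2 = G.κ e.2 := rfl
theorem rev_em (e : P × Fin 4) : rev (G.em e) = G.em (rev e) :=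
  Prod.ext (G.dir_φ e.1 e.2).symm (G.κ2 e.2).symm
theorem rev_em1 (e : P × Fin 4) : (rev (G.em e)).1 = G.φ (rev e).1 := by rw [rev_em, em1]

theorem faces : ∃ l : Fin 4 ≃ Fin 4, ∀ p d, G.ψ p - crn (l d) = G.φ (p - crn d) := by
  rcases G.ori with ⟨-, h⟩ | ⟨-, h⟩
  · exact ⟨G.κ, fun p d => by
      have := (h (p - crn d) d).1
      rw [sub_add_cancel] at this
      rw [this, add_sub_cancel_right]⟩
  · exact ⟨G.κ.trans (Equiv.addRight 1), fun p d => by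
      have := (h (p - crn d) d).1
      rw [sub_add_cancel] at this
      rw [this]; simp⟩

/-- the move carries the tiles `X` of the box `m` and their surroundings to `X'` in the box `m'` -/
structure Ctx (m m' : ℕ) (X X' : Finset P) : Prop where
  pos : 0 < L
  sub : X ⊆ box m
  img : ∀ B, G.β B ∈ X' ↔ B ∈ X
  bx : ∀ B, (∃ a ∈ X, nr 1 a B) → (G.β B ∈ box m' ↔ B ∈ box m)
  cq : ∀ x, par L x ∈ X → (cq (L * m') (G.φ x) ↔ cq (L * m) x)

theorem ctx_one (hL : 0 < L) {m : ℕ} {X : Finset P} (h : X ⊆ box m) : (one L).Ctx m m X X :=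
  ⟨hL, h, fun _ => Iff.rfl, fun _ _ => Iff.rfl, fun _ _ => Iff.rfl⟩

variable {G} {m m' : ℕ} {X X' : Finset P}

namespace Ctx
theorem mono (h : G.Ctx m m' X X') {Y Y' : Finset P} (hY : Y ⊆ X) (hi : ∀ B, G.β B ∈ Y' ↔ B ∈ Y) :
    G.Ctx m m' Y Y' :=
  ⟨h.pos, hY.trans h.sub, hi, fun B ⟨a, ha, hB⟩ => h.bx B ⟨a, hY ha, hB⟩,
    fun x hx => h.cq x (hY hx)⟩

theorem one (h : G.Ctx m m' X X') {T : P} (hT : T ∈ X) : G.Ctx m m' {T} {G.β T} :=
  h.mono (singleton_subset_iff.2 hT) fun B => by simp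

theorem S (h : G.Ctx m m' X X') (x : P) : G.φ x ∈ under L X' ↔ x ∈ under L X := by
  rw [bp_under h.pos, bp_under h.pos, G.par_φ, h.img]

theorem cel (h : G.Ctx m m' X X') (x T : P) : G.φ x ∈ cell L (G.β T) ↔ x ∈ cell L T := by
  rw [bp_cell h.pos, bp_cell h.pos, G.par_φ, G.β.injective.eq_iff]

theorem bxf (h : G.Ctx m m' X X') {x y : P} (hx : x ∈ under L X) (hy : nr 1 x y) :
    G.φ y ∈ box (L * m') ↔ y ∈ box (L * m) := by
  rw [bp_box_par h.pos, bp_box_par h.pos, G.par_φ]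
  exact h.bx _ ⟨_, (bp_under h.pos _ _).1 hx, bp_nr_par h.pos hy⟩

theorem hes (h : G.Ctx m m' X X') {e : P × Fin 4}
    (he : e.1 ∈ under L X ∨ (rev e).1 ∈ under L X) :
    G.em e ∈ hes (L * m') ↔ e ∈ hes (L * m) := by
  have hn : nr 1 e.1 (rev e).1 := bp_nr_dir e.1 e.2
  rw [bp_hes, bp_hes, G.rev_em1, G.em1]
  rcases he with he | he
  · rw [h.bxf he (bp_nr_refl _), h.bxf he hn]
  · rw [h.bxf he (bp_nr_refl _), h.bxf he (bp_nr_symm hn)]

theorem he (h : G.Ctx m m' X X') (e : P × Fin 4) :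
    G.em e ∈ he (L * m') (under L X') ↔ e ∈ he (L * m) (under L X) := by
  simp only [Cx.he, mem_filter, G.rev_em1, G.em1, h.S]
  exact and_congr_left fun he => h.hes he

theorem hes1 (h : G.Ctx m m' X X') (e : P × Fin 4) :
    G.em e ∈ (Cx.hes (L * m')).filter (fun e => e.1 ∈ under L X') ↔
      e ∈ (Cx.hes (L * m)).filter (fun e => e.1 ∈ under L X) := by
  simp only [mem_filter, G.em1, h.S]
  exact and_congr_left fun he => h.hes (Or.inl he)

theorem crs (h : G.Ctx m m' X X') (e : P × Fin 4) :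
    G.em e ∈ crs (L * m') (under L X') ↔ e ∈ crs (L * m) (under L X) := by
  simp only [Cx.crs, mem_filter, G.rev_em1, G.em1, h.S]
  exact and_congr_left fun he => h.hes (Or.inl he.1)

theorem V (h : G.Ctx m m' X X') (p : P) :
    G.ψ p ∈ X'.biUnion (fat L 0) ↔ p ∈ X.biUnion (fat L 0) := by
  obtain ⟨l, hl⟩ := G.faces
  rw [bp_V h.pos, bp_V h.pos, l.surjective.exists]
  exact exists_congr fun d => by rw [hl, h.S]

theorem inn (h : G.Ctx m m' X X') {p : P} (hp : p ∈ X.biUnion (fat L 0)) :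
    G.ψ p ∈ inn (L * m') ↔ p ∈ inn (L * m) := by
  obtain ⟨l, hl⟩ := G.faces
  obtain ⟨d, hd⟩ := (bp_V h.pos _ _).1 hp
  rw [bp_inn, bp_inn, l.surjective.forall]
  exact forall_congr' fun d' => by rw [hl, h.bxf hd (bp_nr_crn _ _ _)]

theorem sqr (h : G.Ctx m m' X X') {p : P} (hp : p ∈ X.biUnion (fat L 0)) :
    p ∈ sqr (L * m) ∧ G.ψ p ∈ sqr (L * m') := by
  obtain ⟨l, hl⟩ := G.faces
  obtain ⟨d, hd⟩ := (bp_V h.pos _ _).1 hp
  have hb : p - crn d ∈ box (L * m) := (bp_box_par h.pos _ _).2 (h.sub ((bp_under h.pos _ _).1 hd))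
  exact ⟨bp_sqr hb, bp_sqr (d := l d) (by rw [hl, h.bxf hd (bp_nr_refl _)]; exact hb)⟩

theorem ring (h : G.Ctx m m' X X') {p : P} (hp : p ∈ X.biUnion (fat L 0)) :
    G.ψ p ∈ ring (L * m') ↔ p ∈ ring (L * m) := by
  simp only [Cx.ring, mem_sdiff, h.inn hp, (h.sqr hp).1, (h.sqr hp).2]

theorem near (h : G.Ctx m m' X X') (T B : P) :
    G.β B ∈ near 1 X' {G.β T} ↔ B ∈ near 1 X {T} := by
  simp only [Cx.near, mem_filter, mem_singleton, exists_eq_left, h.img, G.nr_β]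

theorem nearb (h : G.Ctx m m' X X') {T : P} (hT : T ∈ X) (B : P) :
    G.β B ∈ Cx.near 1 (box m') {G.β T} \ X' ↔ B ∈ Cx.near 1 (box m) {T} \ X := by
  simp only [Cx.near, mem_sdiff, mem_filter, mem_singleton, exists_eq_left, h.img, G.nr_β]
  exact and_congr_left fun _ => and_congr_left fun hn => h.bx B ⟨T, hT, hn⟩

theorem bdry (h : G.Ctx m m' X X') (B : P) :
    G.β B ∈ bdry (box m') X' ↔ B ∈ bdry (box m) X := by
  have : (∃ a ∈ X', nr 1 a (G.β B)) ↔ ∃ a ∈ X, nr 1 a B := by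
    rw [G.β.surjective.exists]
    simp only [h.img, G.nr_β]
  simp only [Cx.bdry, Cx.near, mem_sdiff, mem_filter, h.img, this]
  exact and_congr_left fun _ => and_congr_left fun hn => h.bx B hn
end Ctx
end Geo

end Pool.Agent.Lib.MP_9cc147_pr.Cx
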