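import Pool.Agent.Lib.MP_9cc147_pr.Cx.B.S

/-! The law of the noise on a half edge and the transform of its light part. -/

open scoped Classical ComplexConjugate
open Finset MeasureTheory

noncomputable section
namespace Pool.Agent.Lib.MP_9cc147_pr.Cx

variable {o : Mod}

lemma bp_hl_cont (hh : IsH o.h) : Continuous o.hB :=
  continuous_const.mul (hh.cont.comp (continuous_const.mul continuous_id))

lemma bp_hl_nonneg (hh : IsH o.h) (hB : 0 < o.Bw) (x : ℝ) : 0 ≤ o.hB x :=
  mul_nonneg hB.le (hh.nonneg _)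

lemma bp_hl_even (hh : IsH o.h) (x : ℝ) : o.hB (-x) = o.hB x := by
  rw [Mod.hB, Mod.hB, mul_neg, hh.even]

lemma bp_hl_int (hh : IsH o.h) (hB : 0 < o.Bw) : Integrable o.hB := by
  have h1 : Integrable o.h := Integrable.of_integral_ne_zero (by rw [hh.one]; exact one_ne_zero)
  exact (h1.comp_mul_left' hB.ne').const_mul _

lemma bp_hl_ms : MeasurableSet {x : ℝ | o.sig0 < |x|} :=
  (isOpen_lt continuous_const continuous_abs).measurableSet

lemma bp_hl_ms' : MeasurableSet {x : ℝ | |x| ≤ o.sig0} :=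
  (isClosed_le continuous_abs continuous_const).measurableSet

lemma bp_hl_eh (hh : IsH o.h) (hB : 0 < o.Bw) : 0 ≤ o.eh :=
  integral_nonneg (bp_hl_nonneg hh hB)

lemma bp_hl_prob (hh : IsH o.h) (hB : 0 < o.Bw) : IsProbabilityMeasure o.mh := by
  constructor
  have h1 : ∫⁻ x in {x | o.sig0 < |x|}, ENNReal.ofReal (o.hB x) = ENNReal.ofReal o.eh :=
    (ofReal_integral_eq_lintegral_ofReal (bp_hl_int hh hB).integrableOn
      (Filter.Eventually.of_forall (bp_hl_nonneg hh hB))).symm
  have h2 := bp_hl_eh hh hB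
  rw [Mod.mh, Measure.smul_apply, Measure.add_apply, withDensity_apply _ MeasurableSet.univ,
    Measure.restrict_univ, h1, measure_univ, ← ENNReal.ofReal_one,
    ← ENNReal.ofReal_add zero_le_one h2, smul_eq_mul, ENNReal.ofReal_one]
  exact ENNReal.inv_mul_cancel (ENNReal.ofReal_pos.2 (add_pos_of_pos_of_nonneg one_pos h2)).ne'
    ENNReal.ofReal_ne_top

lemma bp_hl_map (hh : IsH o.h) : o.mh.map (fun x => -x) = o.mh := by
  have hm : Measurable fun x : ℝ => -x := measurable_neg
  have h1 : ((volume.restrict {x | o.sig0 < |x|}).withDensity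
      fun x => ENNReal.ofReal (o.hB x)).map (fun x => -x) =
      (volume.restrict {x | o.sig0 < |x|}).withDensity fun x => ENNReal.ofReal (o.hB x) := by
    ext s hs
    rw [Measure.map_apply hm hs, withDensity_apply _ (hm hs), withDensity_apply _ hs,
      Measure.restrict_restrict (hm hs), Measure.restrict_restrict hs,
      ← lintegral_indicator ((hm hs).inter bp_hl_ms), ← lintegral_indicator (hs.inter bp_hl_ms),
      ← lintegral_neg_eq_self]
    refine lintegral_congr fun x => ?_
    simp only [Set.indicator, Set.mem_inter_iff, Set.mem_preimage, Set.mem_ofPred_eq, neg_neg,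
      abs_neg, bp_hl_even hh]
  rw [Mod.mh, Measure.map_smul, Measure.map_add _ _ hm, h1, Measure.map_dirac' hm, neg_zero]

lemma bp_hl_neg (F : ℝ → ℂ) :
    ∫ x in {x | |x| ≤ o.sig0}, F x = ∫ x in {x | |x| ≤ o.sig0}, F (-x) := by
  rw [← integral_indicator bp_hl_ms', ← integral_indicator bp_hl_ms', ← integral_neg_eq_self]
  refine integral_congr_ae (Filter.Eventually.of_forall fun x => ?_)
  simp only [Set.indicator, Set.mem_ofPred_eq, abs_neg]

lemma bp_hl_diff (hh : IsH o.h) (hB : 0 < o.Bw) : Differentiable ℂ o.hl := by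
  intro y0
  have hc := bp_hl_cont hh
  have hi : Integrable (fun x => o.hB x * (o.sig0 * Real.exp (o.sig0 * (‖y0‖ + 1))))
      (volume.restrict {x | |x| ≤ o.sig0}) := ((bp_hl_int hh hB).mul_const _).integrableOn
  have hcpt : IsCompact {x : ℝ | |x| ≤ o.sig0} := by
    have : {x : ℝ | |x| ≤ o.sig0} = Set.Icc (-o.sig0) o.sig0 := by
      ext x; simp [abs_le]
    rw [this]; exact isCompact_Icc
  refine (hasDerivAt_integral_of_dominated_loc_of_deriv_le
    (F := fun (y : ℂ) (x : ℝ) => (o.hB x : ℂ) * Complex.exp (Complex.I * x * y))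
    (F' := fun (y : ℂ) (x : ℝ) => (o.hB x : ℂ) * (Complex.exp (Complex.I * x * y) * (Complex.I * x)))
    (Metric.ball_mem_nhds y0 one_pos) (Filter.Eventually.of_forall fun y => ?_) ?_ ?_ ?_ hi
    (Filter.Eventually.of_forall fun x y _ => ?_)).2.differentiableAt
  · exact Continuous.aestronglyMeasurable (by fun_prop)
  · exact ContinuousOn.integrableOn_compact hcpt (Continuous.continuousOn (by fun_prop))
  · exact Continuous.aestronglyMeasurable (by fun_prop)
  · refine (ae_restrict_iff' bp_hl_ms').2 (Filter.Eventually.of_forall fun x hx y hy => ?_)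
    have hx : |x| ≤ o.sig0 := hx
    have hy : ‖y‖ ≤ ‖y0‖ + 1 := by
      have := norm_le_norm_add_norm_sub' y y0
      have h2 := mem_ball_iff_norm.1 hy
      linarith [norm_sub_rev y y0]
    have h3 : ‖Complex.exp (Complex.I * x * y)‖ ≤ Real.exp (o.sig0 * (‖y0‖ + 1)) := by
      refine (Complex.norm_exp_le_exp_norm _).trans (Real.exp_le_exp.2 ?_)
      rw [norm_mul, norm_mul, Complex.norm_I, one_mul, Complex.norm_real, Real.norm_eq_abs]
      exact mul_le_mul hx hy (norm_nonneg _) ((abs_nonneg x).trans hx)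
    rw [norm_mul, norm_mul, norm_mul, Complex.norm_I, one_mul, Complex.norm_real,
      Complex.norm_real, Real.norm_eq_abs, Real.norm_eq_abs, abs_of_nonneg (bp_hl_nonneg hh hB x),
      mul_comm o.sig0]
    exact mul_le_mul_of_nonneg_left (mul_le_mul h3 hx (abs_nonneg x) (Real.exp_pos _).le)
      (bp_hl_nonneg hh hB x)
  · have h1 := (((hasDerivAt_id y).const_mul (Complex.I * x)).cexp).const_mul (o.hB x : ℂ)
    simpa using h1

lemma bp_hl_sym (hh : IsH o.h) (y : ℂ) : o.hl (-y) = o.hl y := by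
  rw [Mod.hl, Mod.hl, bp_hl_neg]
  refine integral_congr_ae (Filter.Eventually.of_forall fun x => ?_)
  simp only [bp_hl_even hh, Complex.ofReal_neg, mul_neg, neg_mul, neg_neg]

theorem t_b_hl : S_b_hl := by
  intro o hh hB
  refine ⟨bp_hl_prob hh hB, bp_hl_map hh, bp_hl_diff hh hB, bp_hl_sym hh, fun y => ?_⟩
  rw [← bp_hl_sym hh, Mod.hl, Mod.hl, ← integral_conj]
  refine integral_congr_ae (Filter.Eventually.of_forall fun x => ?_)
  simp only [map_mul, Complex.conj_ofReal, ← Complex.exp_conj, Complex.conj_I, mul_neg, neg_mul]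

end Pool.Agent.Lib.MP_9cc147_pr.Cx
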