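import Pool.Agent.Lib.MP_9cc147_pr.Cx.B.S

/-! The symmetries of the square lattice are moves; their action on the noise. -/

open scoped Classical
open Finset MeasureTheory ProbabilityTheory

noncomputable section
namespace Pool.Agent.Lib.MP_9cc147_pr.Cx

theorem bp_mov_vm (g : Sy) (c : P) : Function.Bijective (vm g c) := by
  obtain ⟨a, b, d⟩ := g
  constructor
  · rintro ⟨x, y⟩ ⟨x', y'⟩ h
    cases a <;> cases b <;> cases d <;> simp [vm, Prod.ext_iff] at h ⊢ <;> omega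
  · rintro ⟨x, y⟩
    refine ⟨if a then ((if d then -1 else 1) * (y - c.2), (if b then -1 else 1) * (x - c.1))
      else ((if b then -1 else 1) * (x - c.1), (if d then -1 else 1) * (y - c.2)), ?_⟩
    cases a <;> cases b <;> cases d <;> simp [vm]

theorem bp_mov_fm (g : Sy) (c : P) : Function.Bijective (fm g c) :=
  (Equiv.subRight _).bijective.comp (bp_mov_vm g c)

def bp_mov_k (g : Sy) : Fin 4 → Fin 4 :=
  if g.sw then ![if g.f2 then 3 else 1, if g.f1 then 2 else 0, if g.f2 then 1 else 3,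
    if g.f1 then 0 else 2]
  else ![if g.f1 then 2 else 0, if g.f2 then 3 else 1, if g.f1 then 0 else 2, if g.f2 then 1 else 3]

theorem bp_mov_kb (g : Sy) : Function.Bijective (bp_mov_k g) := by
  obtain ⟨a, b, d⟩ := g
  cases a <;> cases b <;> cases d <;> decide

theorem bp_mov_pm (g : Sy) (c : P) : Function.Bijective (pm g c) := by
  unfold pm
  split_ifs
  · exact Function.bijective_id
  · exact (Equiv.swap 1 2).bijective

theorem bp_mov_d1 {L : ℕ} (hL : 0 < L) (x c : ℤ) : (x + L * c) / L = x / L + c := by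
  obtain ⟨a1, a2⟩ := (bp_div hL x _).1 rfl
  rw [bp_div hL]
  constructor <;> linarith

theorem bp_mov_d2 {L : ℕ} (hL : 0 < L) (x c : ℤ) : (-x + L * c - 1) / L = -(x / L) + c - 1 := by
  obtain ⟨a1, a2⟩ := (bp_div hL x _).1 rfl
  rw [bp_div hL]
  constructor <;> linarith

theorem bp_mov_typ {L : ℕ} (hL : Odd L) (g : Sy) (c : P) (s : Lab) (x : P) :
    typ (pm g c s) (fm g (smul L c) x) = typ s x := by
  obtain ⟨k, rfl⟩ := hL
  have key : Even ((fm g (smul (2 * k + 1) c) x).1 + (fm g (smul (2 * k + 1) c) x).2) ↔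
      (Even (x.1 + x.2) ↔ Even ((fm g c 0).1 + (fm g c 0).2)) := by
    obtain ⟨a, b, d⟩ := g
    have e1 : (2 * (k : ℤ) + 1) * c.1 = 2 * (k * c.1) + c.1 := by ring
    have e2 : (2 * (k : ℤ) + 1) * c.2 = 2 * (k * c.2) + c.2 := by ring
    cases a <;> cases b <;> cases d <;>
      simp only [fm, vm, smul, Int.even_iff, Prod.fst_sub, Prod.snd_sub, Prod.fst_zero,
        Prod.snd_zero, Nat.cast_add, Nat.cast_mul, Nat.cast_ofNat, Nat.cast_one, e1, e2,
        Bool.false_eq_true, if_true, if_false] <;> omega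
  unfold typ pm
  simp only [key]
  by_cases h1 : Even ((fm g c 0).1 + (fm g c 0).2) <;> by_cases h2 : Even (x.1 + x.2) <;>
    fin_cases s <;> simp [h1, h2, Equiv.swap_apply_def]

def bp_mov_G {L : ℕ} (hL : Odd L) (g : Sy) (c : P) : Geo L where
  φ := Equiv.ofBijective _ (bp_mov_fm g (smul L c))
  β := Equiv.ofBijective _ (bp_mov_fm g c)
  ψ := Equiv.ofBijective _ (bp_mov_vm g (smul L c))
  κ := Equiv.ofBijective _ (bp_mov_kb g)
  π := Equiv.ofBijective _ (bp_mov_pm g c)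
  ε := if (g.sw ^^ g.f1 ^^ g.f2) then -1 else 1
  par_φ x := by
    obtain ⟨a, b, d⟩ := g
    cases a <;> cases b <;> cases d <;>
      simp [fm, vm, smul, par, bp_mov_d1 hL.pos, bp_mov_d2 hL.pos]
  nr_β x y := by
    obtain ⟨a, b, d⟩ := g
    cases a <;> cases b <;> cases d <;> simp [fm, vm, nr, abs_le] <;> omega
  dir_φ x i := by
    obtain ⟨a, b, d⟩ := g
    cases a <;> cases b <;> cases d <;> fin_cases i <;>
      simp [fm, vm, dir, bp_mov_k, Prod.ext_iff] <;> omega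
  κ2 i := by
    obtain ⟨a, b, d⟩ := g
    cases a <;> cases b <;> cases d <;> fin_cases i <;> rfl
  typ_φ := bp_mov_typ hL g c
  ori := by
    obtain ⟨a, b, d⟩ := g
    cases a <;> cases b <;> cases d <;>
      simp [fm, vm, crn, bp_mov_k, Prod.ext_iff, Fin.forall_fin_succ] <;> omega

theorem bp_mov_two {m : ℕ} {X : Finset P} (hX : X ⊆ box m)
    (h : (sds m (near 1 (box m) X)).card ≤ 1) {i j : Fin 4} (hi : i ∈ sds m X) (hj : j ∈ sds m X) :
    i = j := by
  have : sds m X ⊆ sds m (near 1 (box m) X) := fun k hk => by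
    simp only [sds, mem_filter, mem_univ, true_and] at hk ⊢
    obtain ⟨B, hB, h⟩ := hk
    exact ⟨B, mem_filter.2 ⟨hX hB, B, hB, bp_nr_refl B⟩, h⟩
  exact card_le_one.1 h _ (this hi) _ (this hj)

theorem bp_mov_spec {m : ℕ} {X : Finset P} (hX : X ⊆ box m)
    (h : (sds m (near 1 (box m) X)).card ≤ 1) : ¬ spec m X := by
  rintro ⟨a | a, b | b⟩ <;> exact absurd (bp_mov_two hX h a b) (by decide)

theorem bp_mov_cq {L m : ℕ} (hL : 8 ≤ L) {X : Finset P} (hX : X ⊆ box m)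
    (h : (sds m (near 1 (box m) X)).card ≤ 1) {x : P} (hx : par L x ∈ X) : ¬ cq (L * m) x := by
  have h0 : 0 < L := by omega
  have h8 : (8 : ℤ) ≤ L := by exact_mod_cast hL
  obtain ⟨⟨b1, b2⟩, b3, b4⟩ := (bp_box _ _).1 ((bp_box_par h0 m x).2 (hX hx))
  have lo : ∀ y : ℤ, 0 ≤ y → y < 4 → y / L = 0 := fun y h1 h2 =>
    (bp_div h0 _ _).2 ⟨by linarith, by linarith⟩
  have hi : ∀ y : ℤ, y < (L * m : ℕ) → ((L * m : ℕ) : ℤ) - 4 ≤ y → y / L = m - 1 := fun y h1 h2 => by
    push_cast at h1 h2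
    exact (bp_div h0 _ _).2 ⟨by linarith, by linarith⟩
  have s : ∀ i : Fin 4, ![(par L x).1 = 0, (par L x).2 = m - 1, (par L x).2 = 0,
      (par L x).1 = m - 1] i → i ∈ sds m X := fun i hi => mem_filter.2 ⟨mem_univ _, _, hx, hi⟩
  rintro ⟨a | a, b | b⟩
  · exact absurd (bp_mov_two hX h (s 0 (lo _ b1 a)) (s 2 (lo _ b3 b))) (by decide)
  · exact absurd (bp_mov_two hX h (s 0 (lo _ b1 a)) (s 1 (hi _ b4 b))) (by decide)
  · exact absurd (bp_mov_two hX h (s 3 (hi _ b2 a)) (s 2 (lo _ b3 b))) (by decide)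
  · exact absurd (bp_mov_two hX h (s 3 (hi _ b2 a)) (s 1 (hi _ b4 b))) (by decide)

theorem t_b_mov : S_b_mov := by
  intro L g c hL h8
  refine ⟨bp_mov_G hL g c, fun _ => rfl, fun _ => rfl, fun _ => rfl, fun m m' U hU h => ?_⟩
  obtain ⟨h1, h2, h3⟩ := h
  have hU' : U.image (fm g c) ⊆ box m' := by
    intro B hB
    obtain ⟨a, ha, rfl⟩ := mem_image.1 hB
    exact (h1 a ⟨a, ha, bp_nr_refl a⟩).1 (hU ha)
  have hi : ∀ B, fm g c B ∈ U.image (fm g c) ↔ B ∈ U := fun B => (bp_mov_fm g c).1.mem_finset_image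
  refine ⟨⟨hL.pos, hU, hi, fun B hB => (h1 B hB).symm, fun x hx => ?_⟩, bp_mov_spec hU h2,
    bp_mov_spec hU' h3⟩
  refine iff_of_false (bp_mov_cq h8 hU' h3 ?_) (bp_mov_cq h8 hU h2 hx)
  rw [Geo.par_φ]
  exact (hi _).2 hx

theorem t_b_psi : S_b_psi := by
  intro L G μ _ hμ
  let m : ℕ × P → Measure ℝ := fun i => if i.1 < 4 then μ else gaussianReal 0 1
  have hm : ∀ i, IsProbabilityMeasure (m i) := fun i => by
    simp only [m]; split_ifs <;> infer_instance
  let σ : ℕ × P → ℕ × P := fun i =>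
    if h : i.1 < 4 then ((G.κ ⟨i.1, h⟩).val, G.φ i.2) else (i.1, G.ψ i.2)
  have hσ1 : ∀ i, (σ i).1 < 4 ↔ i.1 < 4 := fun i => by
    simp only [σ]; split_ifs with h <;> simp [h]
  have hσ : Function.Injective σ := by
    rintro ⟨i, p⟩ ⟨j, r⟩ h
    have h1 : i < 4 ↔ j < 4 := by rw [← hσ1 (i, p), h, hσ1]
    by_cases hi : i < 4
    · simp only [σ, dif_pos hi, dif_pos (h1.1 hi), Prod.mk.injEq, Fin.val_inj,
        EmbeddingLike.apply_eq_iff_eq, Fin.mk.injEq] at h
      exact Prod.ext h.1 h.2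
    · simp only [σ, dif_neg hi, dif_neg (mt h1.2 hi), Prod.mk.injEq,
        EmbeddingLike.apply_eq_iff_eq] at h
      exact Prod.ext h.1 h.2
  let f : ℕ × P → ℝ → ℝ := fun i x => if i.1 < 4 then (G.ε : ℝ) * x else x
  have hf : ∀ i, Measurable (f i) := fun i => by
    simp only [f]; split_ifs <;> fun_prop
  have e1 : MeasurePreserving (fun (ω : Om) i => ω (σ i)) (mu0 μ) (mu0 μ) := by
    refine ⟨by fun_prop, (Measure.map_infinitePi_infinitePi_of_inj (P := m) hσ).trans ?_⟩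
    unfold mu0
    congr 1 with i : 1
    simp only [m, hσ1]
  have e2 : MeasurePreserving (fun (ω : Om) i => f i (ω i)) (mu0 μ) (mu0 μ) := by
    refine ⟨by fun_prop, (Measure.infinitePi_map_pi m hf).trans ?_⟩
    unfold mu0
    congr 1 with i : 1
    simp only [m, f]
    split_ifs
    · rcases G.ori with ⟨h, -⟩ | ⟨h, -⟩ <;> simp [h, hμ]
    · simp
  convert e2.comp e1 using 1
  funext ω i
  simp only [Geo.Psi, Function.comp, f, σ]
  split_ifs <;> rfl

end Pool.Agent.Lib.MP_9cc147_pr.Cx
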