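import Pool.Agent.Lib.MP_9cc147_pr.Cx.B.Rel

/-! The structure of the data at scale 0, from the pieces. -/

open scoped Classical ComplexConjugate
open Finset MeasureTheory

noncomputable section
namespace Pool.Agent.Lib.MP_9cc147_pr.Cx

theorem bp_rel_one (q : Par) (o : Mod) {u v : ℤ} {χ : ℂ →+* ℂ} {t : ℝ} {z z' : ℂ}
    {Θ Θ' : Fld} {ω ω' : Om} {b : ℕ × ℕ}
    (h : ∀ X ⊆ box (q.m b 0),
      (Geo.one q.L).Tr o (q.m b 0) (q.m b 0) X X u v χ t z z' Θ Θ' ω ω') :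
    Par.Rel (o.pre q t) χ b b z z' Θ Θ' ω ω' id id (box (q.m b 0)) :=
  Geo.rel q (Geo.one q.L) o fun X hX => by rw [bp_img1]; exact h X hX

/-- a relation between the weights on the same configurations passes to the data -/
theorem bp_rel_same (q : Par) (o : Mod) {t : ℝ} {z z' : ℂ} {Θ Θ' : Fld} {ω : Om} {b : ℕ × ℕ}
    {U : Finset P} (h : ∀ X ⊆ U, ∀ σ, ∀ δ ∈ forms o.R (q.n b) (under q.L X),
      o.wt (q.n b) q.L (q.m b 0) t z' Θ' ω X σ δ = o.wt (q.n b) q.L (q.m b 0) t z Θ ω X σ δ) :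
    Par.Rel (o.pre q t) id b b z z' Θ Θ' ω ω id id U := by
  have hk : ∀ X ⊆ U, ∀ σ, o.kp (q.n b) q.L (q.m b 0) t z' Θ' ω X σ =
      o.kp (q.n b) q.L (q.m b 0) t z Θ ω X σ := fun X hX σ => by
    rw [Mod.kp, Mod.kp, sum_congr rfl fun δ (hδ : δ ∈ adm o.R (q.n b) q.L (q.m b 0) ω X σ) =>
      h X hX σ δ (filter_subset _ _ hδ)]
  refine ⟨fun s B hB => ?_, fun s X hX _ => ?_, fun X σ σ' hX _ hσ => ?_⟩
  · simp only [Mod.pre, id]
    rw [Mod.ip, Mod.ip, sum_congr rfl fun δ (hδ : δ ∈ pur o.R (q.n b) q.L ω s B) =>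
      h {B} (singleton_subset_iff.2 hB) _ δ (by rw [bp_under1]; exact filter_subset _ _ hδ)]
  · simp only [Mod.pre, image_id, id, hk X hX]
  · obtain rfl : σ' = σ := funext fun B => by simpa using hσ B
    simp only [Mod.pre, image_id, id, hk X hX]

theorem bp_preS (h_mov : S_b_mov) (h_psi : S_b_psi) (h_hl : S_b_hl) : S_preS := by
  intro q o t0 t hL hodd hh hB
  obtain ⟨p1, p2, hd, he, hc⟩ := h_hl o hh hB
  have h0 : 0 < q.L := by omega
  have hk : ∀ n L m ω X σ (O : Set ℂ) (zf : ℂ → ℂ) (Θf : ℂ → Fld), DifferentiableOn ℂ zf O →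
      (∀ y, DifferentiableOn ℂ (fun τ => Θf τ y) O) →
      DifferentiableOn ℂ (fun τ => o.kp n L m t (zf τ) (Θf τ) ω X σ) O :=
    fun n L m ω X σ O zf Θf hz hΘ => (DifferentiableOn.fun_sum fun δ _ =>
      bp_wt_hol o hd n L m t ω X σ δ hz hΘ).const_mul _
  have lk : ∀ b z X σ, X ⊆ box (q.m b 0) →
      q.Loc0 X fun Θ ω => o.kp (q.n b) q.L (q.m b 0) t z Θ ω X σ := fun b z X σ hX => by
    rw [jg_n]
    exact ⟨bp_kp_meas o hd h0 t z hX σ, fun Θ Ξ ω ω' h =>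
      (bp_tr_loc o t he h0 hX z h).kp fun B => by cases hσ : σ B <;> simp [Geo.one, hσ]⟩
  have l0 : ∀ X, q.Loc0 X fun _ _ => 0 := fun X => ⟨measurable_const, fun _ _ _ _ _ => rfl⟩
  refine ⟨p1, p2, ?_, ?_, ?_, ?_, ?_, ?_, ?_, ?_, ?_, ?_, ?_, rfl⟩
  · intro b z s B _ hB
    simp only [Mod.pre, jg_n]
    exact ⟨bp_ip_meas o hd h0 t z hB s, fun Θ Ξ ω ω' h =>
      Geo.Tr.ip (G := Geo.one q.L) (bp_tr_loc o t he h0 (singleton_subset_iff.2 hB) z h) s⟩
  · intro b z s X _ hX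
    simp only [Mod.pre]
    split_ifs
    · exact lk b z X _ hX.1
    · exact l0 X
  · intro b z X σ _ hX
    simp only [Mod.pre]
    split_ifs
    · exact lk b z X _ hX.1
    · exact l0 X
  · exact fun b ω s B O zf Θf hz hΘ => (DifferentiableOn.fun_sum fun δ _ =>
      bp_wt_hol o hd _ _ _ t ω _ _ δ hz hΘ).const_mul _
  · intro b ω s X O zf Θf hz hΘ
    simp only [Mod.pre]
    split_ifs
    · exact hk _ _ _ _ _ _ O zf Θf hz hΘ
    · exact differentiableOn_const _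
  · intro b ω X σ O zf Θf hz hΘ
    simp only [Mod.pre]
    split_ifs
    · exact hk _ _ _ _ _ _ O zf Θf hz hΘ
    · exact differentiableOn_const _
  · refine fun b z Θ ω c _ => bp_rel_same q o fun X hX σ δ hδ => ?_
    rw [jg_n] at hδ ⊢
    exact bp_wt_shift o h0 hX t z c Θ ω σ hδ
  · exact fun b z Θ ω _ => bp_rel_one q o fun X hX => bp_tr_neg o t he h0 hX z Θ ω
  · exact fun b Θ ω _ => bp_rel_one q o fun X hX => bp_tr_cj o t he hc h0 hX Θ ω
  · refine fun b z Θ ω U _ _ hU => bp_rel_same q o fun X hX σ δ _ => ?_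
    rw [bp_wt, bp_wt, if_neg fun h => hU (bp_spec_mono hX h), if_neg fun h => hU (bp_spec_mono hX h)]
  · intro b b' g c _ _
    obtain ⟨G, hβ, hψ, hπ, hG⟩ := h_mov q.L g c hodd (by omega)
    have eβ : fm g c = G.β := (funext hβ).symm
    have eψ : vm g (smul q.L c) = G.ψ := (funext hψ).symm
    have eπ : pm g c = G.π := (funext hπ).symm
    refine ⟨G.Psi, h_psi _ G _ p2, fun ω y => by simp [Geo.Psi, hψ], fun U hU hM => ?_⟩
    obtain ⟨hx, s1, s2⟩ := hG _ _ U hU hM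
    rw [eβ] at hx s2
    rw [eβ, eψ, eπ]
    refine ⟨fun s B hB => ?_, fun Θ ω => Geo.rel q G o fun X hX => bp_tr_iso o t he
      (hx.mono hX fun B => G.β.injective.mem_finset_image) (fun h => s1 (bp_spec_mono hX h))
      (fun h => s2 (bp_spec_mono (image_subset_image hX) h)) Θ ω⟩
    simp only [Mod.pre, jg_n]
    exact (hx.one hB).cp o s

end Pool.Agent.Lib.MP_9cc147_pr.Cx
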