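import Pool.Agent.Lib.MP_9cc147_pr.Cx.B.Geo

/-! Statements of the pieces of the structure of the data at scale 0. -/

open scoped Classical ComplexConjugate
open Finset MeasureTheory

noncomputable section
namespace Pool.Agent.Lib.MP_9cc147_pr.Cx

/-- action of a move on the noise -/
def Geo.Psi {L : ℕ} (G : Geo L) (ω : Om) : Om := fun i =>
  if h : i.1 < 4 then (G.ε : ℝ) * ω ((G.κ ⟨i.1, h⟩).val, G.φ i.2) else ω (i.1, G.ψ i.2)

/-- the symmetries of the square lattice are moves -/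
def S_b_mov : Prop := ∀ (L : ℕ) (g : Sy) (c : P), Odd L → 8 ≤ L → ∃ G : Geo L,
  (∀ B, G.β B = fm g c B) ∧ (∀ p, G.ψ p = vm g (smul L c) p) ∧ (∀ s, G.π s = pm g c s) ∧
  ∀ m m' U, U ⊆ box m → Mv m m' g c U →
    G.Ctx m m' U (U.image (fm g c)) ∧ ¬ spec m U ∧ ¬ spec m' (U.image (fm g c))

def S_b_psi : Prop := ∀ (L : ℕ) (G : Geo L) (μ : Measure ℝ) [IsProbabilityMeasure μ],
  μ.map (fun x => -x) = μ → MeasurePreserving G.Psi (mu0 μ) (mu0 μ)

def S_b_hl : Prop := ∀ o : Mod, IsH o.h → 0 < o.Bw → IsProbabilityMeasure o.mh ∧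
  o.mh.map (fun x => -x) = o.mh ∧ Differentiable ℂ o.hl ∧ (∀ y, o.hl (-y) = o.hl y) ∧
  ∀ y, o.hl (conj y) = conj (o.hl y)

end Pool.Agent.Lib.MP_9cc147_pr.Cx
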