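import Pool.Agent.Lib.MP_9cc147_pr.Cx.B.Sh
import Pool.Agent.Lib.MP_9cc147_pr.Cx.B.S
import Pool.Agent.Lib.MP_9cc147_pr.Cx.J.Geo

/-! The data at scale 0 under a move: locality, reflection, conjugation, isometries. -/

open scoped Classical ComplexConjugate
open Finset MeasureTheory

noncomputable section
namespace Pool.Agent.Lib.MP_9cc147_pr.Cx

namespace Geo
variable {L : ℕ} {G : Geo L} {m m' : ℕ} {X X' : Finset P} {σ σ' : P → Option Lab}

theorem Ctx.ne (h : G.Ctx m m' X X') :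
    (Cx.bdry (box m') X').Nonempty ↔ (Cx.bdry (box m) X).Nonempty := by
  rw [Finset.Nonempty, G.β.surjective.exists]
  exact exists_congr h.bdry

theorem Ctx.cst (h : G.Ctx m m' X X') (s : Lab) (B : P) :
    cst (box m') X' (G.π s) (G.β B) = (cst (box m) X s B).map G.π := by
  simp only [Cx.cst, h.bdry]
  split_ifs <;> rfl

theorem Ctx.nn (h : G.Ctx m m' X X') (hσ : ∀ B, σ' (G.β B) = (σ B).map G.π) :
    (Nn (box m') X' σ' ∧ Lc (box m') X' σ') ↔ (Nn (box m) X σ ∧ Lc (box m) X σ) := by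
  have hi := Option.map_injective G.π.injective
  refine and_congr (and_congr (not_congr (and_congr h.ne ?_)) ?_) ?_
  · rw [G.π.surjective.exists]
    refine exists_congr fun s => ?_
    rw [funext_iff, funext_iff, G.β.surjective.forall]
    exact forall_congr' fun B => by rw [hσ, h.cst, hi.eq_iff]
  · rw [G.β.surjective.forall]
    exact forall_congr' fun B => by rw [h.bdry, hσ, Option.map_eq_none_iff]
  · rw [Lc, G.β.surjective.forall]
    refine forall_congr' fun a => ?_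
    rw [h.bdry, G.β.surjective.forall]
    exact forall_congr' fun _ => forall_congr' fun b => by
      rw [h.bdry, G.nr_β, hσ, hσ, hi.eq_iff]

/-- the correspondence on all sets of tiles inside `U` gives the relation of the data -/
theorem rel (q : Par) (G : Geo q.L) (o : Mod) {u v : ℤ} {χ : ℂ →+* ℂ} {t : ℝ} {z z' : ℂ}
    {Θ Θ' : Fld} {ω ω' : Om} {b b' : ℕ × ℕ} {U : Finset P}
    (h : ∀ X ⊆ U, G.Tr o (q.m b 0) (q.m b' 0) X (X.image G.β) u v χ t z z' Θ Θ' ω ω') :
    Par.Rel (o.pre q t) χ b b' z z' Θ Θ' ω ω' G.β G.π U := by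
  refine ⟨fun s B hB => ?_, fun s X hX _ => ?_, fun X σ σ' hX _ hσ => ?_⟩
  · have := h {B} (singleton_subset_iff.2 hB)
    rw [image_singleton] at this
    simp only [Mod.pre, jg_n]
    exact this.ip s
  · simp only [Mod.pre, jg_n, (h X hX).ctx.ne]
    split_ifs
    · exact (h X hX).kp ((h X hX).ctx.cst s)
    · exact (map_zero χ).symm
  · simp only [Mod.pre, jg_n, (h X hX).ctx.nn hσ]
    split_ifs
    · exact (h X hX).kp hσ
    · exact (map_zero χ).symm

end Geo

theorem bp_img1 (L : ℕ) (X : Finset P) : X.image (Geo.one L).β = X := image_id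

variable (o : Mod) {L m : ℕ} {X : Finset P} (t : ℝ)

theorem bp_tr_loc (hl : ∀ y, o.hl (-y) = o.hl y) (hL : 0 < L) (hX : X ⊆ box m) (z : ℂ)
    {Θ Ξ : Fld} {ω ω' : Om}
    (h : ∀ p ∈ X.biUnion (fat L 0), Θ p = Ξ p ∧ ∀ i, ω (i, p) = ω' (i, p)) :
    (Geo.one L).Tr o m m X X 1 1 (RingHom.id ℂ) t z z Ξ Θ ω' ω where
  ctx := Geo.ctx_one hL hX
  hu := Or.inl rfl
  hv := Or.inl rfl
  re _ := rfl
  ex _ := rfl
  hl _ := rfl
  ev := hl
  im := by simp [Geo.one]
  th p hp := by simpa [Geo.one] using (h p hp).1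
  zw p hp := by
    have hs := ((Geo.ctx_one hL hX).sqr hp).1
    change zw _ ω p = _
    rw [jg_zw hs, jg_zw hs, (h p hp).2]; simp
  om d x hx := by
    have e : x - crn 3 = x := sub_zero x
    simpa [Geo.one] using (h x ((bp_V hL _ _).2 ⟨3, by rwa [e]⟩)).2 d
  refs _ := Iff.rfl
  et ρ ρ' hρ := by
    have : ρ' = ρ := funext fun p => by simpa [Geo.one] using hρ p
    rw [this]; rfl

theorem bp_tr_neg (hl : ∀ y, o.hl (-y) = o.hl y) (hL : 0 < L) (hX : X ⊆ box m) (z : ℂ)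
    (Θ : Fld) (ω : Om) :
    (Geo.one L).Tr o m m X X (-1) (-1) (RingHom.id ℂ) t z (-z) Θ (-Θ) ω (-ω) where
  ctx := Geo.ctx_one hL hX
  hu := Or.inr rfl
  hv := Or.inr rfl
  re _ := rfl
  ex _ := rfl
  hl _ := rfl
  ev := hl
  im := by simp [Geo.one]
  th p _ := by simp [Geo.one]
  zw p _ := by simp [Geo.one, zw, ext]
  om d x _ := by simp [Geo.one]
  refs _ := Iff.rfl
  et ρ ρ' hρ := by
    have : ρ' = fun p => -ρ p := funext fun p => by simpa [Geo.one] using hρ p
    rw [this]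
    simp [Et, neg_div]

theorem bp_tr_cj (hl : ∀ y, o.hl (-y) = o.hl y) (hc : ∀ y, o.hl (conj y) = conj (o.hl y))
    (hL : 0 < L) (hX : X ⊆ box m) (Θ : Fld) (ω : Om) :
    (Geo.one L).Tr o m m X X (-1) 1 conj t 0 0 Θ (fun y => conj (Θ y)) ω
      (fun i => if i.1 < 4 then -ω i else ω i) where
  ctx := Geo.ctx_one hL hX
  hu := Or.inr rfl
  hv := Or.inl rfl
  re := Complex.conj_ofReal
  ex y := (Complex.exp_conj y).symm
  hl := hc
  ev := hl
  im := by simp [Geo.one]
  th p _ := by simp [Geo.one]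
  zw p _ := by simp [Geo.one, zw, ext]
  om d x _ := by simp [Geo.one]
  refs _ := Iff.rfl
  et ρ ρ' _ := by simp [Et]

theorem bp_tr_iso (hl : ∀ y, o.hl (-y) = o.hl y) {G : Geo L} {m' : ℕ} {X' : Finset P}
    (h : G.Ctx m m' X X') (h1 : ¬ spec m X) (h2 : ¬ spec m' X') (Θ : Fld) (ω : Om) :
    G.Tr o m m' X X' G.ε 1 (RingHom.id ℂ) t 0 0 (Θ ∘ G.ψ) Θ (G.Psi ω) ω where
  ctx := h
  hu := G.eps
  hv := Or.inl rfl
  re _ := rfl
  ex _ := rfl
  hl _ := rfl
  ev := hl
  im := by rcases G.eps with a | a <;> simp [a]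
  th p _ := by simp
  zw p hp := by
    rw [jg_zw (h.sqr hp).1, jg_zw (h.sqr hp).2]
    simp [h.inn hp, Geo.Psi]
  om d x _ := by rcases G.eps with a | a <;> simp [a, Geo.Psi]
  refs p := by
    simp only [refs, mem_filter, mem_inter, h1, h2, h.V, false_imp_iff, and_true]
    exact and_congr_left fun hp => h.ring hp
  et ρ ρ' _ := by simp [Et]

theorem bp_spec_mono {U : Finset P} (hX : X ⊆ U) (h : spec m X) : spec m U := by
  have : sds m X ⊆ sds m U := fun k hk => by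
    obtain ⟨B, hB, h⟩ := (mem_filter.1 hk).2
    exact mem_filter.2 ⟨mem_univ _, B, hX hB, h⟩
  exact ⟨h.1.imp (@this _) (@this _), h.2.imp (@this _) (@this _)⟩

end Pool.Agent.Lib.MP_9cc147_pr.Cx
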