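import Pool.Agent.Lib.MP_9cc147_pr.Cx.B.Wt

/-! Neutrality and shift invariance, holomorphy and measurability of the weights. -/

open scoped Classical
open Finset MeasureTheory

noncomputable section
namespace Pool.Agent.Lib.MP_9cc147_pr.Cx

theorem bp_sum_curl (n : ℕ) (f : P × Fin 4 → ℝ) (hf : ∀ e, f (rev e) = -f e)
    (h0 : ∀ e, e ∉ hes n → f e = 0) : ∑ p ∈ sqr n, curl f p = 0 := by
  have h1 : ∑ p ∈ sqr n, curl f p =
      ∑ e ∈ (sqr n ×ˢ univ).image (fun y : P × Fin 4 => (y.1 - crn (y.2 + 1), y.2)), f e := by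
    rw [sum_image, sum_product]
    · rfl
    · rintro ⟨p, d⟩ - ⟨p', d'⟩ - h
      obtain ⟨h1, h2⟩ := Prod.mk.inj h
      subst h2
      exact Prod.ext (sub_left_injective h1) rfl
  rw [h1, ← sum_subset (s₁ := hes n) _ fun e _ he => h0 e he]
  · refine sum_involution (fun e _ => rev e) (fun e _ => by rw [hf, add_neg_cancel])
      (fun e _ _ h => ?_) (fun e he => (bp_hes_rev n e).2 he) fun e _ => bp_rev_rev e
    have : ∀ d : Fin 4, d + 2 ≠ d := by decide
    exact this e.2 (congrArg Prod.snd h)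
  · intro e he
    refine mem_image.2 ⟨(e.1 + crn (e.2 + 1), e.2), mem_product.2 ⟨bp_sqr (d := e.2 + 1) ?_,
      mem_univ _⟩, by simp⟩
    simpa using ((bp_hes n e).1 he).1

theorem bp_sum_rho (o : Mod) {n : ℕ} {S : Finset P} {δ : Form o.R} (h : δ ∈ forms o.R n S)
    (ω : Om) : ∑ p ∈ sqr n, o.rho n S δ ω p = 0 := by
  rw [← bp_sum_curl n (fun e => o.H (δ e) + Mod.xi n S ω e)]
  · refine sum_congr rfl fun p _ => ?_
    simp only [Mod.rho, curl, sum_add_distrib, Mod.H, Finset.sum_apply, Int.cast_sum, mul_sum]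
    rw [sum_comm]
  · intro e
    rw [(bp_forms0 h).2, bp_xi_rev, ← neg_one_smul ℤ (δ e), bp_H]
    push_cast; ring
  · intro e he
    have : e ∉ Cx.he n S := fun h => he (mem_filter.1 h).1
    rw [(bp_forms0 h).1 e this, bp_xi0 ω this, bp_H0, add_zero]

theorem bp_refs {L m : ℕ} (hL : 0 < L) {X : Finset P} (hX : X ⊆ box m) {p : P}
    (h1 : p ∈ ring (L * m)) (h2 : p ∈ X.biUnion (fat L 0)) : (refs (L * m) L m X).Nonempty := by
  by_cases hs : spec m X
  · have : ∃ B ∈ X, B.2 = 0 ∨ B.1 = m - 1 := by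
      rcases hs.2 with h | h <;> obtain ⟨B, hB, h⟩ := (mem_filter.1 h).2
      · exact ⟨B, hB, Or.inl h⟩
      · exact ⟨B, hB, Or.inr h⟩
    obtain ⟨B, hB, h⟩ := this
    obtain ⟨⟨a1, a2⟩, a3, a4⟩ := (bp_box _ _).1 (hX hB)
    have h0 : (0 : ℤ) < L := by exact_mod_cast hL
    have b1 : 0 < (B.1 + 1) * L := by positivity
    have b2 : (B.1 + 1) * L ≤ L * m := by nlinarith
    have b3 : 0 ≤ B.2 * L := by positivity
    have b4 : B.2 * L < L * m := by nlinarith
    refine ⟨((B.1 + 1) * L, B.2 * L), mem_filter.2 ⟨mem_inter.2 ⟨?_, mem_biUnion.2 ⟨B, hB, ?_⟩⟩,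
      fun _ => if_neg ?_⟩⟩
    · simp only [ring, sqr, inn, mem_sdiff, mem_product, mem_Icc, mem_Ioo, Nat.cast_mul]
      refine ⟨⟨⟨b1.le, b2⟩, b3, b4.le⟩, fun ⟨c1, c2⟩ => ?_⟩
      rcases h with h | h
      · simp [h] at c2
      · rw [h] at c1; nlinarith [c1.2]
    · simp only [fat, mem_product, mem_Icc, Nat.cast_zero, sub_zero, add_zero]
      refine ⟨⟨?_, le_rfl⟩, le_rfl, ?_⟩ <;> nlinarith
    · simp only [Nat.cast_mul]
      omega
  · exact ⟨p, mem_filter.2 ⟨mem_inter.2 ⟨h1, h2⟩, fun h => absurd h hs⟩⟩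

theorem bp_wt_shift (o : Mod) {L m : ℕ} (hL : 0 < L) {X : Finset P} (hX : X ⊆ box m) (t : ℝ)
    (z c : ℂ) (Θ : Fld) (ω : Om) (σ : P → Option Lab) {δ : Form o.R}
    (h : δ ∈ forms o.R (L * m) (under L X)) :
    o.wt (L * m) L m t z (fun p => Θ p + c) ω X σ δ = o.wt (L * m) L m t z Θ ω X σ δ := by
  have hd : dg (o.Xi (L * m) (under L X) δ ω fun p => Θ p + c) =
      dg (o.Xi (L * m) (under L X) δ ω Θ) := by
    ext x d
    simp only [dg, Mod.Xi]; ring
  rw [bp_wt, bp_wt, hd]
  congr 3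
  rcases (refs (L * m) L m X).eq_empty_or_nonempty with hr | hr
  · have hs : ∑ p ∈ inn (L * m), o.rho (L * m) (under L X) δ ω p = 0 := by
      rw [← bp_sum_rho o h ω]
      refine sum_subset (fun p hp => bp_sqr ((bp_inn _ _).1 hp 0)) fun p h1 h2 =>
        bp_rho0 o hL h ω fun h3 => ?_
      exact (bp_refs hL hX (mem_sdiff.2 ⟨h1, h2⟩) h3).ne_empty hr
    have hc : ∑ p ∈ inn (L * m), Complex.I * c * o.rho (L * m) (under L X) δ ω p = 0 := by
      rw [← mul_sum, ← Complex.ofReal_sum, hs]; simp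
    rw [← add_zero (∑ p ∈ inn (L * m), (_ + _ * (Θ p - _))), ← hc, ← sum_add_distrib, hr]
    exact sum_congr rfl fun p _ => by simp; ring
  · have : ((refs (L * m) L m X).card : ℂ) ≠ 0 := Nat.cast_ne_zero.2 hr.card_pos.ne'
    refine sum_congr rfl fun p _ => ?_
    rw [sum_add_distrib, sum_const, nsmul_eq_mul]
    field_simp
    ring

theorem bp_wt_hol (o : Mod) (hl : Differentiable ℂ o.hl) (n L m : ℕ) (t : ℝ) (ω : Om)
    (X : Finset P) (σ : P → Option Lab) (δ : Form o.R) {O : Set ℂ} {zf : ℂ → ℂ} {Θf : ℂ → Fld}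
    (hz : DifferentiableOn ℂ zf O) (hΘ : ∀ y, DifferentiableOn ℂ (fun τ => Θf τ y) O) :
    DifferentiableOn ℂ (fun τ => o.wt n L m t (zf τ) (Θf τ) ω X σ δ) O := by
  have hd : ∀ e : P × Fin 4,
      DifferentiableOn ℂ (fun τ => dg (o.Xi n (under L X) δ ω (Θf τ)) e.1 e.2) O := fun e =>
    (((hΘ _).add_const _).add_const _).sub (((hΘ _).add_const _).add_const _)
  simp only [bp_wt]
  refine ((((DifferentiableOn.fun_finsetProd fun e _ => ?_).mul
    (DifferentiableOn.fun_finsetProd fun e _ => ?_)).mul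
    (DifferentiableOn.fun_finsetProd fun e _ => ?_)).mul
    (DifferentiableOn.fun_sum fun p _ => ?_).cexp).mul ?_
  · exact (((hd e).pow 2).const_mul _).cexp.const_mul _
  · refine ((((hd e).pow 2).const_mul _).cexp.mul_const _).mul ?_
    split_ifs
    · exact hl.comp_differentiableOn (hd e)
    · exact differentiableOn_const _
  · exact (((hd e).pow 2).const_mul _).cexp
  · exact (((hΘ p).sub ((DifferentiableOn.fun_sum fun y _ => hΘ y).div_const _)).const_mul
      _).const_add _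
  · split_ifs
    · exact (((hz.pow 2).mul_const _).const_add _).add ((hz.const_mul _).mul_const _)
    · exact differentiableOn_const _

theorem bp_wt_meas (o : Mod) (hl : Differentiable ℂ o.hl) (n L m : ℕ) (t : ℝ) (z : ℂ)
    (X : Finset P) (σ : P → Option Lab) (δ : Form o.R) :
    Measurable fun y : Fld × Om => o.wt n L m t z y.1 y.2 X σ δ := by
  have h1 : ∀ p, Measurable fun y : Fld × Om => y.1 p := fun p =>
    (measurable_pi_apply p).comp measurable_fst
  have h2 : ∀ i, Measurable fun y : Fld × Om => y.2 i := fun i =>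
    (measurable_pi_apply i).comp measurable_snd
  have hx : ∀ e, Measurable fun y : Fld × Om => Mod.xi n (under L X) y.2 e := fun e => by
    unfold Mod.xi
    split_ifs <;> fun_prop
  have hρ : ∀ p, Measurable fun y : Fld × Om => o.rho n (under L X) δ y.2 p := fun p =>
    (Finset.measurable_sum _ fun d _ => hx _).const_add _
  have hw : ∀ p, Measurable fun y : Fld × Om => zw n y.2 p := fun p =>
    ((h2 _).const_mul _).const_mul _
  have hΞ : ∀ p, Measurable fun y : Fld × Om => o.Xi n (under L X) δ y.2 y.1 p := fun p => by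
    unfold Mod.Xi
    refine ((h1 p).add (hw p).complex_ofReal).add ?_
    split_ifs
    · exact ((hρ p).complex_ofReal.const_mul _).div_const _
    · exact measurable_const
  have hd : ∀ e : P × Fin 4,
      Measurable fun y : Fld × Om => dg (o.Xi n (under L X) δ y.2 y.1) e.1 e.2 := fun e =>
    (hΞ _).sub (hΞ _)
  simp only [bp_wt]
  refine ((((Finset.measurable_prod _ fun e _ => ?_).mul
    (Finset.measurable_prod _ fun e _ => ?_)).mul (Finset.measurable_prod _ fun e _ => ?_)).mul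
    (Finset.measurable_sum _ fun p _ => ?_).cexp).mul ?_
  · exact (((hd e).pow_const 2).const_mul _).cexp.const_mul _
  · exact ((((hd e).pow_const 2).const_mul _).cexp.mul_const _).mul
      (Measurable.ite (measurableSet_eq_fun (h2 _) measurable_const)
        (hl.continuous.measurable.comp (hd e)) measurable_const)
  · exact (((hd e).pow_const 2).const_mul _).cexp
  · exact (((hρ p).pow_const 2).div_const _).complex_ofReal.neg.add
      (((hρ p).complex_ofReal.const_mul _).mul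
        ((h1 p).sub ((Finset.measurable_sum _ fun y _ => h1 y).div_const _)))
  · split_ifs
    · have hJ := (Finset.measurable_sum ((ring n).filter fun p => uB n p = 1)
        fun p _ => hρ p).const_mul t
      exact ((((hJ.cos.sub_const _).div_const _).complex_ofReal.const_mul _).const_add _).add
        ((hJ.sin.div_const _).complex_ofReal.const_mul _)
    · exact measurable_const

/-- a property of the zeros of finitely many coordinates is measurable -/
theorem bp_pat (A : Finset (ℕ × P)) (Q : Om → Prop)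
    (h : ∀ ω ω', (∀ i ∈ A, ω' i = 0 ↔ ω i = 0) → Q ω → Q ω') : MeasurableSet {ω | Q ω} := by
  let f : Om → A → Prop := fun ω i => ω i = 0
  have hf : Measurable f := measurable_pi_lambda _ fun i => measurableSet_setOfPred.1
    (measurableSet_eq_fun (measurable_pi_apply _) measurable_const)
  have : {ω | Q ω} = f ⁻¹' (f '' {ω | Q ω}) := Set.Subset.antisymm (Set.subset_preimage_image _ _)
    fun ω' ⟨ω, hω, e⟩ => h ω ω' (fun i hi => (congrFun e ⟨i, hi⟩).to_iff.symm) hω
  rw [this]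
  exact hf (Set.toFinite _).measurableSet

theorem bp_sum_meas {R : ℕ} {L : ℕ} (X : Finset P) (F : Finset (Form R))
    (Z : Om → Finset (Form R)) (hZ : ∀ ω, Z ω ⊆ F)
    (h : ∀ δ ω ω', (∀ (d : Fin 4), ∀ x ∈ under L X, ω' (d.val, x) = 0 ↔ ω (d.val, x) = 0) →
      (δ ∈ Z ω' ↔ δ ∈ Z ω))
    (w : Form R → Fld × Om → ℂ) (hw : ∀ δ, Measurable (w δ)) :
    Measurable fun y : Fld × Om => ∑ δ ∈ Z y.2, w δ y := by
  have : (fun y : Fld × Om => ∑ δ ∈ Z y.2, w δ y) =
      fun y => ∑ δ ∈ F, if δ ∈ Z y.2 then w δ y else 0 := funext fun y => by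
    rw [sum_ite_mem, inter_eq_right.2 (hZ _)]
  rw [this]
  refine Finset.measurable_sum _ fun δ _ => Measurable.ite
    (measurable_snd (bp_pat (range 4 ×ˢ under L X) (fun ω => δ ∈ Z ω) fun ω ω' hh =>
      (h δ ω ω' fun d x hx => hh _ (mem_product.2 ⟨mem_range.2 d.2, hx⟩)).2)) (hw δ)
    measurable_const

theorem bp_kp_meas (o : Mod) (hl : Differentiable ℂ o.hl) {L m : ℕ} (hL : 0 < L) (t : ℝ) (z : ℂ)
    {X : Finset P} (hX : X ⊆ box m) (σ : P → Option Lab) :
    Measurable fun y : Fld × Om => o.kp (L * m) L m t z y.1 y.2 X σ :=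
  (bp_sum_meas X _ (fun ω => adm o.R (L * m) L m ω X σ) (fun _ => filter_subset _ _)
    (fun _ _ _ h => (Geo.ctx_one hL hX).adm (Or.inl rfl) h (fun B => by
      cases hσ : σ B <;> simp [Geo.one, hσ]) fun _ => (one_smul _ _).symm) _
    (bp_wt_meas o hl _ L m t z X σ)).const_mul _

theorem bp_ip_meas (o : Mod) (hl : Differentiable ℂ o.hl) {L m : ℕ} (hL : 0 < L) (t : ℝ) (z : ℂ)
    {T : P} (hT : T ∈ box m) (s : Lab) :
    Measurable fun y : Fld × Om => o.ip (L * m) L m t z y.1 y.2 s T :=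
  (bp_sum_meas {T} _ (fun ω => pur o.R (L * m) L ω s T) (fun _ => filter_subset _ _)
    (fun _ _ _ h => Geo.Ctx.pur (G := Geo.one L) (Geo.ctx_one hL (singleton_subset_iff.2 hT))
      (Or.inl rfl) h (fun _ => (one_smul _ _).symm) s) _
    (bp_wt_meas o hl _ L m t z {T} _)).const_mul _

end Pool.Agent.Lib.MP_9cc147_pr.Cx
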