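import Pool.Agent.Lib.MP_9cc147_pr.Cx.S2

/-! Continuity of the data at scale 0 in the two tuning parameters. -/

open scoped Classical
open Finset

noncomputable section
namespace Pool.Agent.Lib.MP_9cc147_pr.Cx

section
variable (η : ℝ) (R : ℕ) (gap Bw : ℝ) (h : ℝ → ℝ)

lemma bpc_a : Continuous fun τ : rect => (τ : ℝ × ℝ).1 := continuous_subtype_val.fst
lemma bpc_x1 : Continuous fun τ : rect => (τ : ℝ × ℝ).2 := continuous_subtype_val.snd

lemma bpc_gam : Continuous fun τ : rect => (Mod.mk' η R gap Bw h τ).gam :=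
  continuous_const.sub ((Real.continuous_exp.comp bpc_a.neg).div_const 2)

lemma bpc_xw (w : Gp R) : Continuous fun τ : rect => (Mod.mk' η R gap Bw h τ).xw w := by
  have h2 : Continuous fun τ : rect => (Mod.mk' η R gap Bw h τ).x2 :=
    Continuous.rpow_const (((continuous_const.mul (Real.continuous_exp.comp bpc_a)).sub
      continuous_const).sub (continuous_const.mul (bpc_x1.pow 4))) fun _ => Or.inr (by norm_num)
  exact h2.if_const (∃ i : Fin (ng R), R + R ^ 2 ≤ i.val ∧ w i ≠ 0)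
    (bpc_x1.if_const (isG w) continuous_const)

lemma bpc_sq (w : Gp R) :
    Continuous fun τ : rect => Real.sqrt ((Mod.mk' η R gap Bw h τ).xw w) :=
  Real.continuous_sqrt.comp (bpc_xw η R gap Bw h w)

lemma bpc_five {A C : rect → ℂ} (B D E : ℂ) (hA : Continuous A) (hC : Continuous C) :
    Continuous fun τ => A τ * B * C τ * D * E := by fun_prop

lemma bpc_cm {α : Type} [TopologicalSpace α] [Mul α] [ContinuousMul α] {A : rect → α} (c : α)
    (hA : Continuous A) : Continuous fun τ => c * A τ := by fun_prop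

/-- the weight with the two tuned quantities as arguments -/
def bpcW (o : Mod) (x : Gp o.R → ℝ) (g : ℝ) (n L m : ℕ) (t : ℝ) (z : ℂ) (Θ : Fld) (ω : Om)
    (X : Finset P) (σ : P → Option Lab) (δ : Form o.R) (ρ : P → ℝ) (Ξ : Fld) : ℂ :=
  (∏ e ∈ he n (under L X), ((Real.sqrt (x (δ e)) : ℝ) *
      Complex.exp (-(if isG (δ e) then o.η / 4 else 0 : ℝ) * dg Ξ e.1 e.2 ^ 2))) *
    (∏ e ∈ (hes n).filter (fun e => e.1 ∈ under L X),
      Complex.exp (-(o.η / 4 : ℝ) * dg Ξ e.1 e.2 ^ 2) *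
      (1 + o.eh : ℝ) * if ω (e.2.val, e.1) = 0 then o.hl (dg Ξ e.1 e.2) else 1) *
    (∏ e ∈ crs n (under L X), Complex.exp ((exc L σ e * g * o.η / 4 : ℝ) * dg Ξ e.1 e.2 ^ 2)) *
    Complex.exp (∑ p ∈ inn n, (-(ρ p ^ 2 / 32 : ℝ) + Complex.I * ρ p *
      (Θ p - (∑ y ∈ refs n L m X, Θ y) / (refs n L m X).card))) *
    if spec m X then Et z t (∑ p ∈ (ring n).filter (fun p => uB n p = 1), ρ p) else 1

lemma bpc_wt (n L m : ℕ) (t : ℝ) (z : ℂ) (Θ : Fld) (ω : Om) (X : Finset P) (σ : P → Option Lab)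
    (δ : Form R) : Continuous fun τ : rect => (Mod.mk' η R gap Bw h τ).wt n L m t z Θ ω X σ δ := by
  have h1 := bpc_sq η R gap Bw h
  have h2 := bpc_gam η R gap Bw h
  have h3 : ∀ ρ Ξ, Continuous fun τ : rect => bpcW ⟨η, R, gap, Bw, 0, 0, h⟩
      (Mod.mk' η R gap Bw h τ).xw (Mod.mk' η R gap Bw h τ).gam n L m t z Θ ω X σ δ ρ Ξ := by
    intro ρ Ξ
    refine bpc_five _ _ _ (continuous_finsetProd _ fun e _ => ?_)
      (continuous_finsetProd _ fun e _ => ?_)
    · exact (Complex.continuous_ofReal.comp (h1 (δ e))).mul continuous_const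
    · exact Complex.continuous_exp.comp ((Complex.continuous_ofReal.comp
        (((continuous_const.mul h2).mul continuous_const).div_const 4)).mul continuous_const)
  have h4 := h3 (Mod.rho ⟨η, R, gap, Bw, 0, 0, h⟩ n (under L X) δ ω) fun p => Θ p + zw n ω p +
    if p ∈ inn n then Complex.I * Mod.rho ⟨η, R, gap, Bw, 0, 0, h⟩ n (under L X) δ ω p / 16 else 0
  exact h4

lemma bpc_kp (n L m : ℕ) (t : ℝ) (z : ℂ) (Θ : Fld) (ω : Om) (X : Finset P) (σ : P → Option Lab) :
    Continuous fun τ : rect => (Mod.mk' η R gap Bw h τ).kp n L m t z Θ ω X σ := by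
  have h1 := bpc_cm ((((2 * R : ℝ) ^ (-nexp n L X σ) : ℝ)) : ℂ) (continuous_finsetSum
    (adm R n L m ω X σ) fun δ _ => bpc_wt η R gap Bw h n L m t z Θ ω X σ δ)
  exact h1

end

theorem t_preC : S_preC := by
  intro q η R gap Bw h t
  refine ⟨fun s => ?_, fun b s B => ?_, fun b Θ ω s B => ?_, fun b Θ ω s X => ?_,
    fun b Θ ω X σ => ?_⟩
  · exact (continuous_const (y := η)).if_const (s = 0)
      (bpc_cm η (continuous_const.add (bpc_gam η R gap Bw h)))
  · have h1 := bpc_cm ((2 * R : ℝ) ^ (-nexp (q.n b) q.L {B} fun _ => some s))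
      (continuous_finsetSum (pur R (q.n b) q.L 0 s B) fun δ _ =>
        continuous_finsetProd (he (q.n b) (cell q.L B)) fun e _ => bpc_sq η R gap Bw h (δ e))
    exact h1
  · have h1 := bpc_cm ((((2 * R : ℝ) ^ (-nexp (q.n b) q.L {B} fun _ => some s) : ℝ)) : ℂ)
      (continuous_finsetSum (pur R (q.n b) q.L ω s B) fun δ _ =>
        bpc_wt η R gap Bw h (q.n b) q.L (q.m b 0) t 0 Θ ω {B} (fun _ => some s) δ)
    exact h1
  · exact (bpc_kp η R gap Bw h _ _ _ t 0 Θ ω X _).if_const _ continuous_const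
  · exact (bpc_kp η R gap Bw h _ _ _ t 0 Θ ω X σ).if_const _ continuous_const

end Pool.Agent.Lib.MP_9cc147_pr.Cx
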