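import Pool.Agent.Lib.MP_9cc147_pr.Cx.B.Pre
import Pool.Agent.Lib.MP_9cc147_pr.Cx.B.Mov
import Pool.Agent.Lib.MP_9cc147_pr.Cx.B.Hl

/-! The structure of the data at scale 0. -/

namespace Pool.Agent.Lib.MP_9cc147_pr.Cx

theorem t_preS : S_preS := bp_preS t_b_mov t_b_psi t_b_hl

end Pool.Agent.Lib.MP_9cc147_pr.Cx
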