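import Pool.Agent.Lib.MP_9cc147_pr.Cx.B.Adm

/-! Transport of the weights along a move. -/

open scoped Classical
open Finset

noncomputable section
namespace Pool.Agent.Lib.MP_9cc147_pr.Cx

variable {R : ℕ} {u v : ℤ}

theorem bp_H (o : Mod) (k : ℤ) (w : Gp o.R) : o.H (k • w) = k * o.H w := by
  simp only [Mod.H, Pi.smul_apply, smul_eq_mul, Int.cast_mul, mul_sum]
  exact sum_congr rfl fun i _ => by ring
theorem bp_H0 (o : Mod) : o.H 0 = 0 := by simp [Mod.H]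

theorem bp_forms0 {n : ℕ} {S : Finset P} {δ : Form R} (h : δ ∈ forms R n S) :
    (∀ e, e ∉ he n S → δ e = 0) ∧ ∀ e, δ (rev e) = -δ e :=
  ⟨((bp_cfgs _ _ _ _).1 (mem_filter.1 h).1).2, (mem_filter.1 h).2.1⟩

theorem bp_xi_rev (n : ℕ) (S : Finset P) (ω : Om) (e : P × Fin 4) :
    Mod.xi n S ω (rev e) = -Mod.xi n S ω e := by
  simp only [Mod.xi, bp_hes_rev, bp_rev_rev]
  split_ifs <;> simp

theorem bp_xi0 {n : ℕ} {S : Finset P} (ω : Om) {e : P × Fin 4} (h : e ∉ he n S) :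
    Mod.xi n S ω e = 0 := by
  simp only [he, mem_filter, not_and, not_or] at h
  unfold Mod.xi
  split_ifs with h1 h2 h3 h4 <;> first | rfl | simp_all

/-- the charges live on the closed tiles -/
theorem bp_rho0 (o : Mod) {L n : ℕ} (hL : 0 < L) {X : Finset P} {δ : Form o.R}
    (h : δ ∈ forms o.R n (under L X)) (ω : Om) {p : P} (hp : p ∉ X.biUnion (fat L 0)) :
    o.rho n (under L X) δ ω p = 0 := by
  have : ∀ d : Fin 4, (p - crn (d + 1), d) ∉ he n (under L X) := fun d hd =>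
    hp (by simpa using (bp_ends hL (mem_filter.1 hd).2).2)
  simp only [Mod.rho, curl]
  rw [sum_eq_zero fun d _ => (bp_forms0 h).1 _ (this d), sum_eq_zero fun d _ => bp_xi0 ω (this d),
    bp_H0, add_zero]

/-- the shifted field -/
def Mod.Xi (o : Mod) (n : ℕ) (S : Finset P) (δ : Form o.R) (ω : Om) (Θ : Fld) : Fld := fun p =>
  Θ p + zw n ω p + if p ∈ inn n then Complex.I * o.rho n S δ ω p / 16 else 0

theorem bp_wt (o : Mod) (n L m : ℕ) (t : ℝ) (z : ℂ) (Θ : Fld) (ω : Om) (X : Finset P)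
    (σ : P → Option Lab) (δ : Form o.R) : o.wt n L m t z Θ ω X σ δ =
    (∏ e ∈ he n (under L X), ((Real.sqrt (o.xw (δ e)) : ℝ) *
      Complex.exp (-(if isG (δ e) then o.η / 4 else 0 : ℝ) *
        dg (o.Xi n (under L X) δ ω Θ) e.1 e.2 ^ 2))) *
    (∏ e ∈ (hes n).filter (fun e => e.1 ∈ under L X),
      Complex.exp (-(o.η / 4 : ℝ) * dg (o.Xi n (under L X) δ ω Θ) e.1 e.2 ^ 2) * (1 + o.eh : ℝ) *
        if ω (e.2.val, e.1) = 0 then o.hl (dg (o.Xi n (under L X) δ ω Θ) e.1 e.2) else 1) *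
    (∏ e ∈ crs n (under L X), Complex.exp ((exc L σ e * o.gam * o.η / 4 : ℝ) *
      dg (o.Xi n (under L X) δ ω Θ) e.1 e.2 ^ 2)) *
    Complex.exp (∑ p ∈ inn n, (-(o.rho n (under L X) δ ω p ^ 2 / 32 : ℝ) +
      Complex.I * o.rho n (under L X) δ ω p *
        (Θ p - (∑ y ∈ refs n L m X, Θ y) / (refs n L m X).card))) *
    if spec m X then Et z t (∑ p ∈ (ring n).filter (fun p => uB n p = 1),
      o.rho n (under L X) δ ω p) else 1 := rfl

namespace Geo
variable {L : ℕ} {G : Geo L} {m m' : ℕ} {X X' : Finset P} {ω ω' : Om}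

theorem eps (G : Geo L) : G.ε = 1 ∨ G.ε = -1 := G.ori.imp And.left And.left

theorem curl_tr (G : Geo L) {α : Type} [AddCommGroup α] {f f' : P × Fin 4 → α}
    (hf : ∀ e, f (rev e) = -f e) (h : ∀ e, f' (G.em e) = u • f e) (p : P) :
    curl f' (G.ψ p) = (G.ε * u) • curl f p := by
  rw [curl, curl, smul_sum]
  rcases G.ori with ⟨he, o⟩ | ⟨he, o⟩
  · refine (sum_equiv G.κ (by simp) fun d _ => ?_).symm
    have := (o (p - crn (d + 1)) d).2
    rw [sub_add_cancel] at this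
    rw [he, one_mul, ← h, this, add_sub_cancel_right]
    rfl
  · refine (sum_equiv (G.κ.trans (Equiv.addRight 2)) (by simp) fun d _ => ?_).symm
    have := (o (p - crn (d + 1)) d).2
    rw [sub_add_cancel] at this
    have h2 := (bp_rev_crn (G.em (p - crn (d + 1), d))).2
    rw [he, neg_one_mul, neg_smul, ← smul_neg, ← hf, ← h, ← G.rev_em]
    congr 1
    refine Prod.ext (eq_sub_of_add_eq ?_) rfl
    rw [this]
    exact h2

theorem dg_tr (G : Geo L) (hL : 0 < L) (χ : ℂ →+* ℂ) {Ξ Ξ' : Fld}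
    (h : ∀ p ∈ X.biUnion (fat L 0), Ξ' (G.ψ p) = v * χ (Ξ p)) {e : P × Fin 4}
    (he : e.1 ∈ under L X ∨ (rev e).1 ∈ under L X) :
    dg Ξ' (G.em e).1 (G.em e).2 = (G.ε * v : ℤ) * χ (dg Ξ e.1 e.2) := by
  obtain ⟨h1, h2⟩ := bp_ends hL he
  rw [dg, dg, map_sub, G.em1, G.em2]
  rcases G.ori with ⟨he, o⟩ | ⟨he, o⟩ <;>
    rw [← (o _ _).1, ← (o _ _).2, h _ h1, h _ h2, he] <;> push_cast <;> ring

theorem Ctx.xi (h : G.Ctx m m' X X')
    (hω : ∀ (d : Fin 4), ∀ x ∈ under L X, ω' ((G.κ d).val, G.φ x) = u * ω (d.val, x))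
    (e : P × Fin 4) :
    Mod.xi (L * m') (under L X') ω' (G.em e) = u • Mod.xi (L * m) (under L X) ω e := by
  by_cases he : e ∈ Cx.he (L * m) (under L X)
  · have h1 := (mem_filter.1 he).1
    have h2 := (mem_filter.1 ((h.he e).2 he)).1
    rw [Mod.xi, Mod.xi, if_pos h1, if_pos h2, G.rev_em, G.em1, G.em1, G.em2, G.em2, zsmul_eq_mul]
    simp only [h.S]
    split_ifs with a b c
    · rw [hω _ _ a, hω _ _ b]; ring
    · rw [hω _ _ a]; ring
    · rw [hω _ _ c]; ring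
    · ring
  · rw [bp_xi0 _ he, bp_xi0 _ (mt (h.he e).1 he), smul_zero]

theorem Ctx.rho (h : G.Ctx m m' X X') (o : Mod) {δ δ' : Form o.R}
    (hω : ∀ (d : Fin 4), ∀ x ∈ under L X, ω' ((G.κ d).val, G.φ x) = u * ω (d.val, x))
    (hf : δ ∈ Cx.forms o.R (L * m) (under L X)) (hδ : ∀ e, δ' (G.em e) = u • δ e) (p : P) :
    o.rho (L * m') (under L X') δ' ω' (G.ψ p) =
      (G.ε * u : ℤ) * o.rho (L * m) (under L X) δ ω p := by
  rw [Mod.rho, Mod.rho, G.curl_tr (bp_forms0 hf).2 hδ,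
    G.curl_tr (bp_xi_rev _ _ _) (h.xi hω), bp_H, zsmul_eq_mul, mul_add]

/-- two sets of arguments of the weights that correspond under the move -/
structure Tr (G : Geo L) (o : Mod) (m m' : ℕ) (X X' : Finset P) (u v : ℤ) (χ : ℂ →+* ℂ) (t : ℝ)
    (z z' : ℂ) (Θ Θ' : Fld) (ω ω' : Om) : Prop where
  ctx : G.Ctx m m' X X'
  hu : u = 1 ∨ u = -1
  hv : v = 1 ∨ v = -1
  re : ∀ x : ℝ, χ x = x
  ex : ∀ y, χ (Complex.exp y) = Complex.exp (χ y)
  hl : ∀ y, o.hl (χ y) = χ (o.hl y)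
  ev : ∀ y, o.hl (-y) = o.hl y
  im : v * χ Complex.I = Complex.I * (G.ε * u : ℤ)
  th : ∀ p ∈ X.biUnion (fat L 0), Θ' (G.ψ p) = v * χ (Θ p)
  zw : ∀ p ∈ X.biUnion (fat L 0), zw (L * m') ω' (G.ψ p) = v * zw (L * m) ω p
  om : ∀ (d : Fin 4), ∀ x ∈ under L X, ω' ((G.κ d).val, G.φ x) = u * ω (d.val, x)
  refs : ∀ p, G.ψ p ∈ refs (L * m') L m' X' ↔ p ∈ refs (L * m) L m X
  et : ∀ ρ ρ' : P → ℝ, (∀ p, ρ' (G.ψ p) = (G.ε * u : ℤ) * ρ p) →
    (if spec m' X' then Et z' t (∑ p ∈ (ring (L * m')).filter (fun p => uB (L * m') p = 1), ρ' p)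
      else 1) = χ (if spec m X then
        Et z t (∑ p ∈ (ring (L * m)).filter (fun p => uB (L * m) p = 1), ρ p) else 1)

namespace Tr
variable {o : Mod} {χ : ℂ →+* ℂ} {t : ℝ} {z z' : ℂ} {Θ Θ' : Fld} {σ σ' : P → Option Lab}

theorem om0 (h : G.Tr o m m' X X' u v χ t z z' Θ Θ' ω ω') (d : Fin 4) (x : P)
    (hx : x ∈ under L X) : ω' ((G.κ d).val, G.φ x) = 0 ↔ ω (d.val, x) = 0 := by
  rw [h.om d x hx]
  rcases h.hu with rfl | rfl <;> simp

theorem wt (h : G.Tr o m m' X X' u v χ t z z' Θ Θ' ω ω')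
    (hσ : ∀ B, σ' (G.β B) = (σ B).map G.π) {δ δ' : Form o.R}
    (hf : δ ∈ forms o.R (L * m) (under L X)) (hδ : ∀ e, δ' (G.em e) = u • δ e) :
    o.wt (L * m') L m' t z' Θ' ω' X' σ' δ' = χ (o.wt (L * m) L m t z Θ ω X σ δ) := by
  have hρ := h.ctx.rho o h.om hf hδ
  have hf' := (h.ctx.forms h.hu hδ).2 hf
  have vv : (v : ℂ) * v = 1 := by rcases h.hv with rfl | rfl <;> simp
  have hI : χ Complex.I = v * Complex.I * (G.ε * u : ℤ) := by
    rw [mul_assoc, ← h.im, ← mul_assoc, vv, one_mul]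
  have hΞ : ∀ p ∈ X.biUnion (fat L 0), o.Xi (L * m') (under L X') δ' ω' Θ' (G.ψ p) =
      v * χ (o.Xi (L * m) (under L X) δ ω Θ p) := fun p hp => by
    simp only [Mod.Xi, h.th p hp, h.zw p hp, h.ctx.inn hp, hρ, map_add, h.re]
    split_ifs
    · rw [map_div₀, map_mul, h.re, map_ofNat, mul_add, mul_add, mul_div_assoc', ← mul_assoc, h.im]
      push_cast; ring
    · simp [mul_add]
  have hs : G.ε * v = 1 ∨ G.ε * v = -1 := by
    rcases G.eps with a | a <;> rcases h.hv with b | b <;> simp [a, b]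
  have h2 : ∀ e : P × Fin 4, e.1 ∈ under L X ∨ (rev e).1 ∈ under L X →
      dg (o.Xi (L * m') (under L X') δ' ω' Θ') (G.em e).1 (G.em e).2 ^ 2 =
        χ (dg (o.Xi (L * m) (under L X) δ ω Θ) e.1 e.2) ^ 2 ∧
      o.hl (dg (o.Xi (L * m') (under L X') δ' ω' Θ') (G.em e).1 (G.em e).2) =
        χ (o.hl (dg (o.Xi (L * m) (under L X) δ ω Θ) e.1 e.2)) := fun e he => by
    rw [G.dg_tr h.ctx.pos χ hΞ he]
    rcases hs with a | a <;> simp [a, h.ev, h.hl]
  rw [bp_wt, bp_wt, map_mul, map_mul, map_mul, map_mul, map_prod, map_prod, map_prod,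
    h.et _ _ hρ, h.ex, map_sum]
  congr 2
  · congr 1
    · congr 1
      · refine (prod_equiv G.em (fun e => (h.ctx.he e).symm) fun e he => ?_).symm
        rw [(h2 e (mem_filter.1 he).2).1, hδ, bp_xw o h.hu, map_mul, h.ex, map_mul, map_neg, h.re,
          h.re, map_pow]
        simp only [bp_isG h.hu]
      · refine (prod_equiv G.em (fun e => (h.ctx.hes1 e).symm) fun e he => ?_).symm
        have hS := (mem_filter.1 he).2
        rw [(h2 e (Or.inl hS)).1, (h2 e (Or.inl hS)).2, map_mul, map_mul, h.ex, map_mul, map_neg,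
          h.re, h.re, map_pow, apply_ite χ, map_one]
        simp only [G.em1, G.em2, h.om0 _ _ hS]
    · refine (prod_equiv G.em (fun e => (h.ctx.crs e).symm) fun e he => ?_).symm
      rw [(h2 e (Or.inl (mem_filter.1 he).2.1)).1, Ctx.exc hσ, h.ex, map_mul, h.re, map_pow]
  · congr 1
    have hc : (Cx.refs (L * m) L m X).card = (Cx.refs (L * m') L m' X').card :=
      card_equiv G.ψ fun p => (h.refs p).symm
    have hr : ∑ y ∈ Cx.refs (L * m') L m' X', Θ' y = v * χ (∑ y ∈ Cx.refs (L * m) L m X, Θ y) := by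
      rw [map_sum, mul_sum]
      exact (sum_equiv G.ψ (fun p => (h.refs p).symm) fun p hp =>
        (h.th p (mem_inter.1 (mem_filter.1 hp).1).2).symm).symm
    rw [← sum_subset (inter_subset_left (s₁ := inn (L * m')) (s₂ := X'.biUnion (fat L 0)))
        fun p h1 h2 => by
          rw [bp_rho0 o h.ctx.pos hf' ω' fun h3 => h2 (mem_inter.2 ⟨h1, h3⟩)]; simp,
      ← sum_subset (inter_subset_left (s₁ := inn (L * m)) (s₂ := X.biUnion (fat L 0)))
        fun p h1 h2 => by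
          rw [bp_rho0 o h.ctx.pos hf ω fun h3 => h2 (mem_inter.2 ⟨h1, h3⟩)]; simp]
    refine (sum_equiv G.ψ (fun p => ?_) fun p hp => ?_).symm
    · rw [mem_inter, mem_inter, h.ctx.V]
      exact and_congr_left fun hp => (h.ctx.inn hp).symm
    · have uu : ((G.ε * u : ℤ) : ℝ) ^ 2 = 1 := by
        rcases G.eps with a | a <;> rcases h.hu with b | b <;> simp [a, b]
      rw [hρ, mul_pow, uu, one_mul, h.th p (mem_inter.1 hp).2, hr, ← hc, map_add, map_neg, h.re,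
        map_mul, map_mul, h.re, map_sub, map_div₀, map_natCast, hI]
      push_cast; ring

theorem kp (h : G.Tr o m m' X X' u v χ t z z' Θ Θ' ω ω')
    (hσ : ∀ B, σ' (G.β B) = (σ B).map G.π) :
    o.kp (L * m') L m' t z' Θ' ω' X' σ' = χ (o.kp (L * m) L m t z Θ ω X σ) := by
  rw [Mod.kp, Mod.kp, map_mul, h.re, map_sum, h.ctx.nexp hσ]
  congr 1
  exact (sum_equiv (G.tf o.R h.hu) (fun δ => (h.ctx.adm h.hu h.om0 hσ (G.tf_em h.hu δ)).symm)
    fun δ hδ => (h.wt hσ (mem_filter.1 hδ).1 (G.tf_em h.hu δ)).symm).symm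

theorem ip {T : P} (h : G.Tr o m m' {T} {G.β T} u v χ t z z' Θ Θ' ω ω') (s : Lab) :
    o.ip (L * m') L m' t z' Θ' ω' (G.π s) (G.β T) = χ (o.ip (L * m) L m t z Θ ω s T) := by
  rw [Mod.ip, Mod.ip, map_mul, h.re, map_sum, h.ctx.nexp (σ := fun _ => some s) fun _ => rfl]
  congr 1
  exact (sum_equiv (G.tf o.R h.hu) (fun δ => (h.ctx.pur h.hu h.om0 (G.tf_em h.hu δ) s).symm)
    fun δ hδ => (h.wt (σ := fun _ => some s) (fun _ => rfl)
      (by rw [bp_under1]; exact (mem_filter.1 hδ).1) (G.tf_em h.hu δ)).symm).symm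

end Tr
end Geo

end Pool.Agent.Lib.MP_9cc147_pr.Cx
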